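import Mathlib

/-!
# Homotopical semantics of first-order logic over one binary operation

Definitions for MP_19b7cf_lc: terms, formulas, the interpretation of a formula with free variables
among `x_0, ..., x_{n-1}` as a map `τ(φ) → X^n` of simplicial sets, satisfaction, and the `A_4`
condition.
-/

namespace Pool.Agent.H93.Hofo

/-! ### Syntax -/

/-- Terms in the variables `x_0, ..., x_{n-1}` over one binary function symbol `m`. -/
inductive Tm (n : ℕ) : Type
  | var (i : Fin n) : Tm n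
  | m (s t : Tm n) : Tm n

/-- Formulas of intuitionistic first-order logic with equality over the signature `{m}`, with free
variables among `x_0, ..., x_{n-1}`. In `all φ` and `ex φ` the bound variable is the last variable
`x_n` of `φ : Fml (n + 1)`. -/
inductive Fml : ℕ → Type
  | top {n : ℕ} : Fml n
  | bot {n : ℕ} : Fml n
  | eq {n : ℕ} (s t : Tm n) : Fml n
  | and {n : ℕ} (φ ψ : Fml n) : Fml n
  | or {n : ℕ} (φ ψ : Fml n) : Fml n
  | imp {n : ℕ} (φ ψ : Fml n) : Fml n
  | all {n : ℕ} (φ : Fml (n + 1)) : Fml n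
  | ex {n : ℕ} (φ : Fml (n + 1)) : Fml n

open CategoryTheory MonoidalCategory CartesianMonoidalCategory Opposite

noncomputable section

/-! ### Some explicit simplicial sets -/

section Constructions

open Simplicial

/-- The power `X^n`. -/
def Pow (X : SSet.{0}) (n : ℕ) : SSet.{0} where
  obj k := Fin n → X.obj k
  map θ := ↾fun x i => X.map θ (x i)

/-- The map `Y → X^n` with components `u i`. -/
def powLift {X Y : SSet.{0}} {n : ℕ} (u : Fin n → (Y ⟶ X)) : Y ⟶ Pow X n where
  app k := ↾fun y i => (u i).app k y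
  naturality k l θ := by
    ext y
    funext i
    exact NatTrans.naturality_apply (u i) θ y

/-- The projection `x_i : X^n → X`. -/
def proj {X : SSet.{0}} {n : ℕ} (i : Fin n) : Pow X n ⟶ X where
  app k := ↾fun x => x i

/-- The projection `X^(n+1) → X^n` which forgets the last variable. -/
def dropLast (X : SSet.{0}) (n : ℕ) : Pow X (n + 1) ⟶ Pow X n where
  app k := ↾fun x i => x i.castSucc

/-- The empty simplicial set. -/
def EmptyS : SSet.{0} where
  obj _ := Empty
  map _ := ↾fun x => x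

/-- The map from the empty simplicial set. -/
def emptyMap (B : SSet.{0}) : EmptyS ⟶ B where
  app k := ↾fun x => x.elim
  naturality k l θ := by
    ext x
    exact x.elim

/-- The coproduct (disjoint union) of two simplicial sets. -/
def SumS (P Q : SSet.{0}) : SSet.{0} where
  obj k := P.obj k ⊕ Q.obj k
  map θ := ↾fun x => Sum.map (fun p => P.map θ p) (fun q => Q.map θ q) x
  map_id k := by
    ext x
    rcases x with x | x <;> simp
  map_comp θ η := by
    ext x
    rcases x with x | x <;> simp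

/-- The map from a coproduct given by `f` and `g`. -/
def sumMap {P Q B : SSet.{0}} (f : P ⟶ B) (g : Q ⟶ B) : SumS P Q ⟶ B where
  app k := ↾fun x => Sum.elim (fun p => f.app k p) (fun q => g.app k q) x
  naturality k l θ := by
    ext x
    rcases x with x | x
    · exact NatTrans.naturality_apply f θ x
    · exact NatTrans.naturality_apply g θ x

/-- The fibre product `A ×_B C`. -/
def FP {A B C : SSet.{0}} (f : A ⟶ B) (g : C ⟶ B) : SSet.{0} where
  obj k := {p : A.obj k × C.obj k // f.app k p.1 = g.app k p.2}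
  map {k l} θ := ↾fun p => ⟨(A.map θ p.1.1, C.map θ p.1.2), by
    have h1 := NatTrans.naturality_apply f θ p.1.1
    have h2 := NatTrans.naturality_apply g θ p.1.2
    simp only at h1 h2 ⊢
    rw [h1, h2, p.2]⟩
  map_id k := by
    ext x <;> simp
  map_comp θ η := by
    ext x <;> simp

/-- First projection of the fibre product. -/
def FP.fst {A B C : SSet.{0}} (f : A ⟶ B) (g : C ⟶ B) : FP f g ⟶ A where
  app k := ↾fun p => p.1.1

/-- Second projection of the fibre product. -/
def FP.snd {A B C : SSet.{0}} (f : A ⟶ B) (g : C ⟶ B) : FP f g ⟶ C where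
  app k := ↾fun p => p.1.2

/-- The map `A' ×_B C → A ×_B C` induced by a map `A' → A` over `B`. -/
def FP.map {A A' B C : SSet.{0}} {f : A ⟶ B} {f' : A' ⟶ B} (g : C ⟶ B) (i : A' ⟶ A)
    (h : i ≫ f = f') : FP f' g ⟶ FP f g where
  app k := ↾fun p => ⟨(i.app k p.1.1, p.1.2), by
    subst h
    exact p.2⟩
  naturality k l θ := by
    apply ConcreteCategory.hom_ext
    intro x
    exact Subtype.ext (Prod.ext (by exact NatTrans.naturality_apply i θ x.1.1) rfl)

theorem std_map_id (n : SimplexCategory) :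
    SSet.stdSimplex.{0}.map (𝟙 n) = 𝟙 (SSet.stdSimplex.obj n) :=
  CategoryTheory.Functor.map_id _ _

theorem std_map_comp {n m l : SimplexCategory} (f : n ⟶ m) (g : m ⟶ l) :
    SSet.stdSimplex.{0}.map (f ≫ g) = SSet.stdSimplex.map f ≫ SSet.stdSimplex.map g :=
  CategoryTheory.Functor.map_comp _ _ _

/-- The map `Δ[k] → B` which corresponds to a `k`-simplex `b` of `B`. -/
def smap {B : SSet.{0}} {k : SimplexCategoryᵒᵖ} (b : B.obj k) :
    SSet.stdSimplex.obj k.unop ⟶ B :=
  SSet.yonedaEquiv.symm b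

theorem map_smap {B : SSet.{0}} {k l : SimplexCategoryᵒᵖ} (θ : k ⟶ l) (b : B.obj k) :
    SSet.stdSimplex.map θ.unop ≫ smap b = smap (B.map θ b) :=
  SSet.yonedaEquiv_symm_naturality_left θ.unop b

/-- Let `f : A → B`, `g : A → C` and `q : Q → C`. A `k`-simplex of `DProd f g q` is a pair of a
`k`-simplex `base` of `B` and a map `sec : Δ[k] ×_B A → Q` over `C` (the fibre product being formed
with `base : Δ[k] → B`). -/
structure DSimplex {A B C Q : SSet.{0}} (f : A ⟶ B) (g : A ⟶ C) (q : Q ⟶ C)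
    (k : SimplexCategoryᵒᵖ) : Type where
  base : B.obj k
  sec : FP (smap base) f ⟶ Q
  comm : sec ≫ q = FP.snd (smap base) f ≫ g

theorem DSimplex.ext' {A B C Q : SSet.{0}} {f : A ⟶ B} {g : A ⟶ C} {q : Q ⟶ C}
    {k : SimplexCategoryᵒᵖ} {s t : DSimplex f g q k} (h1 : s.base = t.base)
    (h2 : ∀ (l : SimplexCategoryᵒᵖ) (x : (SSet.stdSimplex.obj k.unop).obj l) (a : A.obj l)
      (h : (smap s.base).app l x = f.app l a) (h' : (smap t.base).app l x = f.app l a),
      s.sec.app l ⟨(x, a), h⟩ = t.sec.app l ⟨(x, a), h'⟩) : s = t := by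
  obtain ⟨b, s, hs⟩ := s
  obtain ⟨b', t, ht⟩ := t
  obtain rfl : b = b' := h1
  congr 1
  ext l ⟨⟨x, a⟩, h⟩
  exact h2 l x a h h

/-- The simplicial set with simplices `DSimplex f g q`. -/
def DProd {A B C Q : SSet.{0}} (f : A ⟶ B) (g : A ⟶ C) (q : Q ⟶ C) : SSet.{0} where
  obj k := DSimplex f g q k
  map {k l} θ := ↾fun s =>
    { base := B.map θ s.base
      sec := FP.map f (SSet.stdSimplex.map θ.unop) (map_smap θ s.base) ≫ s.sec
      comm := by
        rw [Category.assoc, s.comm]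
        rfl }
  map_id k := by
    apply ConcreteCategory.hom_ext
    intro s
    refine DSimplex.ext' (by simp) (fun l x a h h' => ?_)
    refine congrArg (s.sec.app l) (Subtype.ext (Prod.ext ?_ rfl))
    change (SSet.stdSimplex.map (𝟙 k.unop)).app l x = x
    rw [std_map_id]
    rfl
  map_comp {k l m} θ η := by
    apply ConcreteCategory.hom_ext
    intro s
    refine DSimplex.ext' (by simp) (fun l x a h h' => ?_)
    refine congrArg (s.sec.app l) (Subtype.ext (Prod.ext ?_ rfl))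
    change (SSet.stdSimplex.map (η.unop ≫ θ.unop)).app l x = _
    rw [std_map_comp]
    rfl

/-- The map `DProd f g q → B`. -/
def DProd.hom {A B C Q : SSet.{0}} (f : A ⟶ B) (g : A ⟶ C) (q : Q ⟶ C) : DProd f g q ⟶ B where
  app k := ↾fun s => s.base

/-- The path space `X^Δ[1]`: its `k`-simplices are the maps `Δ[k] × Δ[1] → X`. -/
def PathS (X : SSet.{0}) : SSet.{0} where
  obj k := SSet.stdSimplex.obj k.unop ⊗ Δ[1] ⟶ X
  map θ := ↾fun γ => (SSet.stdSimplex.map θ.unop ▷ Δ[1]) ≫ γ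
  map_id k := by
    apply ConcreteCategory.hom_ext
    intro γ
    change (SSet.stdSimplex.map (𝟙 k.unop) ▷ Δ[1]) ≫ γ = γ
    rw [std_map_id, id_whiskerRight, Category.id_comp]
  map_comp θ η := by
    apply ConcreteCategory.hom_ext
    intro γ
    change (SSet.stdSimplex.map (η.unop ≫ θ.unop) ▷ Δ[1]) ≫ γ =
      (SSet.stdSimplex.map η.unop ▷ Δ[1]) ≫ (SSet.stdSimplex.map θ.unop ▷ Δ[1]) ≫ γ
    rw [std_map_comp, comp_whiskerRight, Category.assoc]

/-- The path fibration `X^Δ[1] → X × X`, which sends a path to its endpoints. -/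
def pathEnds (X : SSet.{0}) : PathS X ⟶ X ⊗ X where
  app k := ↾fun γ => (SSet.yonedaEquiv (SSet.ι₀ ≫ γ), SSet.yonedaEquiv (SSet.ι₁ ≫ γ))
  naturality k l θ := by
    apply ConcreteCategory.hom_ext
    intro γ
    exact Prod.ext (SSet.yonedaEquiv_naturality θ.unop (SSet.ι₀ ≫ γ)).symm
      (SSet.yonedaEquiv_naturality θ.unop (SSet.ι₁ ≫ γ)).symm

end Constructions

/-! ### The interpretation of formulas -/

/-- The interpretation of a term in `n` variables as a map `X^n → X`. -/
def Tm.eval {X : SSet.{0}} (μ : X ⊗ X ⟶ X) {n : ℕ} : Tm n → (Pow X n ⟶ X)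
  | .var i => proj i
  | .m s t => lift (s.eval μ) (t.eval μ) ≫ μ

/-- The interpretation `τ(φ) → X^n` of a formula with free variables among `x_0, ..., x_{n-1}`:
* `top` is the identity of `X^n` and `bot` is the empty simplicial set;
* `s = t` is the pullback of the path fibration `X^Δ[1] → X × X` along `(s, t) : X^n → X × X`;
* `and` is the fibre product and `or` is the coproduct;
* `imp` is the fibrewise mapping space: a `k`-simplex over `b : Δ[k] → X^n` is a map
  `Δ[k] ×_{X^n} τ(φ) → τ(ψ)` over `X^n`;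
* `all` is the dependent product along `X^(n+1) → X^n`: a `k`-simplex over `b : Δ[k] → X^n` is a
  map `Δ[k] ×_{X^n} X^(n+1) → τ(φ)` over `X^(n+1)`;
* `ex` is the dependent sum, that is, composition with the projection `X^(n+1) → X^n`. -/
def tau {X : SSet.{0}} (μ : X ⊗ X ⟶ X) : {n : ℕ} → Fml n → Over (Pow X n)
  | _, .top => Over.mk (𝟙 _)
  | _, .bot => Over.mk (emptyMap _)
  | _, .eq s t => Over.mk (FP.fst (lift (s.eval μ) (t.eval μ)) (pathEnds X))
  | _, .and φ ψ => Over.mk (FP.fst (tau μ φ).hom (tau μ ψ).hom ≫ (tau μ φ).hom)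
  | _, .or φ ψ => Over.mk (sumMap (tau μ φ).hom (tau μ ψ).hom)
  | _, .imp φ ψ => Over.mk (DProd.hom (tau μ φ).hom (tau μ φ).hom (tau μ ψ).hom)
  | n, .all φ => Over.mk (DProd.hom (dropLast X n) (𝟙 (Pow X (n + 1))) (tau μ φ).hom)
  | n, .ex φ => Over.mk ((tau μ φ).hom ≫ dropLast X n)

/-- A sentence is satisfied by `(X, μ)` when its interpretation `τ(φ)` is non-empty. -/
def Sat {X : SSet.{0}} (μ : X ⊗ X ⟶ X) (φ : Fml 0) : Prop :=
  Nonempty ((tau μ φ).left.obj (op (SimplexCategory.mk 0)))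

/-! ### The `A_4` condition -/

section A4

open Simplicial

variable {X Y : SSet.{0}}

/-- `H : Y × Δ[1] → X` is a homotopy from `f` to `g`. -/
def IsHtpy (f g : Y ⟶ X) (H : Y ⊗ Δ[1] ⟶ X) : Prop :=
  SSet.ι₀ ≫ H = f ∧ SSet.ι₁ ≫ H = g

/-- The homotopy `K` is a composite of the homotopy `H` followed by the homotopy `H'`: there is a
map `Y × Δ[2] → X` (a `2`-simplex of the Kan complex of maps `Y → X`) whose restrictions to the
edges `01`, `12` and `02` of `Δ[2]` are `H`, `H'` and `K`. -/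
def IsComposite (H H' K : Y ⊗ Δ[1] ⟶ X) : Prop :=
  ∃ T : Y ⊗ Δ[2] ⟶ X, (Y ◁ SSet.stdSimplex.δ 2) ≫ T = H ∧ (Y ◁ SSet.stdSimplex.δ 0) ≫ T = H' ∧
    (Y ◁ SSet.stdSimplex.δ 1) ≫ T = K

/-- The homotopies `K` and `K'` are homotopic relative to their endpoints: there is a homotopy
`T : (Y × Δ[1]) × Δ[1] → X` from `K` to `K'` which is stationary on `Y × {0}` and `Y × {1}`. -/
def HtpyRelEnds (K K' : Y ⊗ Δ[1] ⟶ X) : Prop :=
  ∃ T : (Y ⊗ Δ[1]) ⊗ Δ[1] ⟶ X, SSet.ι₀ ≫ T = K ∧ SSet.ι₁ ≫ T = K' ∧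
    (SSet.ι₀ ▷ Δ[1]) ≫ T = fst Y Δ[1] ≫ SSet.ι₀ ≫ K ∧
    (SSet.ι₁ ▷ Δ[1]) ≫ T = fst Y Δ[1] ≫ SSet.ι₁ ≫ K

/-- The product `u v : Y → X` of two maps `u v : Y → X`. -/
def mulMap (μ : X ⊗ X ⟶ X) (u v : Y ⟶ X) : Y ⟶ X := lift u v ≫ μ

/-- The homotopy `α(u, v, w) : Y × Δ[1] → X`. -/
def alphaAt (α : Pow X 3 ⊗ Δ[1] ⟶ X) (u v w : Y ⟶ X) : Y ⊗ Δ[1] ⟶ X :=
  (powLift ![u, v, w] ▷ Δ[1]) ≫ α

/-- The constant homotopy of a map `u : Y → X`. -/
def constHtpy (u : Y ⟶ X) : Y ⊗ Δ[1] ⟶ X := fst Y Δ[1] ≫ u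

/-- The operation `μ` satisfies the `A_4` condition: there is a homotopy `α` from `(x y) z` to
`x (y z)`, as maps `X^3 → X`, such that the two composite homotopies from `((a b) c) d` to
`a (b (c d))`, as maps `X^4 → X`, are homotopic relative to their endpoints. Here `P` is a composite
of `α(a b, c, d)` followed by `α(a, b, c d)`, and `Q` is a composite of `α(a, b, c) d`, then
`α(a, b c, d)`, then `a α(b, c, d)`. -/
def A4 (μ : X ⊗ X ⟶ X) : Prop :=
  ∃ α : Pow X 3 ⊗ Δ[1] ⟶ X,
    IsHtpy (mulMap μ (mulMap μ (proj 0) (proj 1)) (proj 2))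
      (mulMap μ (proj 0) (mulMap μ (proj 1) (proj 2))) α ∧
    ∃ P R Q : Pow X 4 ⊗ Δ[1] ⟶ X,
      IsComposite (alphaAt α (mulMap μ (proj 0) (proj 1)) (proj 2) (proj 3))
        (alphaAt α (proj 0) (proj 1) (mulMap μ (proj 2) (proj 3))) P ∧
      IsComposite (mulMap μ (alphaAt α (proj 0) (proj 1) (proj 2)) (constHtpy (proj 3)))
        (alphaAt α (proj 0) (mulMap μ (proj 1) (proj 2)) (proj 3)) R ∧
      IsComposite R (mulMap μ (constHtpy (proj 0)) (alphaAt α (proj 1) (proj 2) (proj 3))) Q ∧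
      HtpyRelEnds P Q

end A4

end

end Pool.Agent.H93.Hofo
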