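import Pool.Agent.H93.Hofo.Los

/-!
# The structures attached to a self-map of a set

For a self-map `sf` of a set `V` we construct a structure which satisfies `A_4` if and only if
there is a `2`-colouring `p` of `V` with `p (sf v) ≠ p v`.
-/

namespace Pool.Agent.H93.Hofo

open Filter

/-- The group `D_5 × Z/2`. -/
abbrev NN : Type := DihedralGroup 5 × Multiplicative (ZMod 2)

/-- The automorphism `r i ↦ r (2 i)`, `sr i ↦ sr (2 i)` of `D_5`. -/
def dbl : DihedralGroup 5 →* DihedralGroup 5 where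
  toFun
    | .r i => .r (2 * i)
    | .sr i => .sr (2 * i)
  map_one' := by decide
  map_mul' := by decide

/-- The homomorphism `D_5 → Z/2`. -/
def sgn : DihedralGroup 5 →* Multiplicative (ZMod 2) where
  toFun
    | .r _ => 1
    | .sr _ => Multiplicative.ofAdd 1
  map_one' := by decide
  map_mul' := by decide

/-- The automorphism `θ_x`. -/
def thx : NN →* NN := dbl.prodMap (MonoidHom.id _)

/-- The automorphism `θ_t`. -/
def tht : NN →* NN := (MonoidHom.fst _ _).prod ((MonoidHom.snd _ _) * (sgn.comp (MonoidHom.fst _ _)))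

/-- The automorphism `θ_x^ε θ_t^t`. -/
def Th (ε t : Bool) : NN →* NN :=
  (if ε then thx else MonoidHom.id _).comp (if t then tht else MonoidHom.id _)

/-- The elements `ν^(ε ε') z^(ε ε' P)`. -/
def Hf (ε ε' P : Bool) : NN :=
  if ε && ε' then (DihedralGroup.sr 0, if P then Multiplicative.ofAdd 1 else 1) else 1

theorem Hf_one : ∀ ε ε' t t' P : Bool, ∀ n : NN,
    Th ε' t' (Th ε t n) * Hf ε ε' P = Hf ε ε' P * Th (xor ε ε') (xor t t') n := by
  decide

theorem Hf_two : ∀ ε ε' ε'' P t : Bool,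
    Hf ε' ε'' (xor P t) * Hf ε (xor ε' ε'') (xor P t) =
      Th ε'' t (Hf ε ε' P) * Hf (xor ε ε') ε'' (xor P t) := by
  decide

/-- The shapes of labels. -/
inductive Sh3 : Type
  | q (ε : Bool) (r : Fin 3)
  | s (b : Bool)
  | z
  deriving DecidableEq

theorem finite_Sh3 : Finite Sh3 := by
  have h : Function.Surjective (fun x : (Bool × Fin 3) ⊕ Bool ⊕ Unit => match x with
    | .inl a => Sh3.q a.1 a.2
    | .inr (.inl b) => Sh3.s b
    | .inr (.inr _) => Sh3.z) := by
    rintro (⟨ε, r⟩ | b | _)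
    · exact ⟨.inl (ε, r), rfl⟩
    · exact ⟨.inr (.inl b), rfl⟩
    · exact ⟨.inr (.inr ()), rfl⟩
  exact Finite.of_surjective _ h

/-- The product of `{e, u, w}` with `u r = u` and `w r = w`. -/
def rmul (r r' : Fin 3) : Fin 3 := if r = 0 then r' else r

/-- The action of `{e, u, w}` on `{a, b}`. -/
def act (β : Bool) (r : Fin 3) : Bool := β && decide (r = 0)

/-- The cocycle. -/
def tt (β : Bool) (r : Fin 3) : Bool := β && decide (r = 2)

/-- The shape data. -/
def SS : SD Sh3 NN where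
  mul
    | .q ε r, .q ε' r' => .q (xor ε ε') (rmul r r')
    | .s β, .q _ r => .s (act β r)
    | _, _ => .z
  lam
    | .s β, .q ε r => Th ε (tt β r)
    | _, _ => 1

/-- The operation on the second components of labels. -/
def opV {V : Type} (sf : V → V) (v₀ : V) : Sh3 → Sh3 → V → V → V
  | .s β, .q _ r, v, _ => if tt β r then sf v else v
  | _, _, _, _ => v₀

variable {V : Type} (sf : V → V) (v₀ : V)

theorem tt_mul : ∀ (β : Bool) (r r' : Fin 3),
    tt β (rmul r r') = xor (tt β r) (tt (act β r) r') := by decide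

theorem act_mul : ∀ (β : Bool) (r r' : Fin 3), act β (rmul r r') = act (act β r) r' := by decide

theorem tt_tt : ∀ (β : Bool) (r r' : Fin 3), tt β r = true → tt (act β r) r' = false := by decide

theorem label_assoc (a b c : Sh3 × V) :
    (SS.toLD (opV sf v₀)).mul ((SS.toLD (opV sf v₀)).mul a b) c =
      (SS.toLD (opV sf v₀)).mul a ((SS.toLD (opV sf v₀)).mul b c) := by
  obtain ⟨a, v⟩ := a
  obtain ⟨b, w⟩ := b
  obtain ⟨c, x⟩ := c
  rcases a with ⟨ε, r⟩ | β | _ <;> rcases b with ⟨ε', r'⟩ | β' | _ <;>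
    rcases c with ⟨ε'', r''⟩ | β'' | _ <;> try rfl
  · refine Prod.ext ?_ rfl
    change Sh3.q (xor (xor ε ε') ε'') (rmul (rmul r r') r'') =
      Sh3.q (xor ε (xor ε' ε'')) (rmul r (rmul r' r''))
    rw [Bool.xor_assoc]
    congr 1
    revert r r' r''
    decide
  · refine Prod.ext ?_ ?_
    · change Sh3.s (act (act β r') r'') = Sh3.s (act β (rmul r' r''))
      rw [act_mul]
    · change (if tt (act β r') r'' then sf (if tt β r' then sf v else v) else
        (if tt β r' then sf v else v)) = if tt β (rmul r' r'') then sf v else v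
      rw [tt_mul]
      rcases h : tt β r' with _ | _
      · simp
      · rw [tt_tt β r' r'' h]
        simp

/-- The gauge. -/
def hh (p : V → Bool) (a b c : Sh3 × V) : NN :=
  match a.1, b.1, c.1 with
  | .s _, .q ε _, .q ε' _ =>
    Hf ε ε' (p ((SS.toLD (opV sf v₀)).mul ((SS.toLD (opV sf v₀)).mul a b) c).2)
  | _, _, _ => 1

theorem A4_of_colouring (p : V → Bool) (hp : ∀ v, p (sf v) = !(p v)) :
    A4 (muL (SS.toLD (opV sf v₀))) := by
  refine A4_of _ (label_assoc sf v₀) (hh sf v₀ p) ?_ ?_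
  · rintro ⟨a, v⟩ ⟨b, w⟩ ⟨c, x⟩ n
    rcases a with ⟨ε, r⟩ | β | _ <;> rcases b with ⟨ε', r'⟩ | β' | _ <;>
      rcases c with ⟨ε'', r''⟩ | β'' | _ <;> try rfl
    change Th ε'' (tt (act β r') r'') (Th ε' (tt β r') n) * Hf ε' ε'' (p _) =
      Hf ε' ε'' (p _) * Th (xor ε' ε'') (tt β (rmul r' r'')) n
    rw [tt_mul]
    exact Hf_one _ _ _ _ _ _
  · rintro ⟨a, v⟩ ⟨b, w⟩ ⟨c, x⟩ ⟨d, y⟩
    rcases a with ⟨ε, r⟩ | β | _ <;> rcases b with ⟨ε', r'⟩ | β' | _ <;>
      rcases c with ⟨ε'', r''⟩ | β'' | _ <;> rcases d with ⟨ε''', r'''⟩ | β''' | _ <;> try rfl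
    have e1 := label_assoc sf v₀ ((SS.toLD (opV sf v₀)).mul (Sh3.s β, v) (Sh3.q ε' r', w))
      (Sh3.q ε'' r'', x) (Sh3.q ε''' r''', y)
    have e2 := label_assoc sf v₀ (Sh3.s β, v) (Sh3.q ε' r', w) (Sh3.q ε'' r'', x)
    have e3 : ∀ (t : Bool) (v : V), p (if t then sf v else v) = xor (p v) t := by
      intro t v
      cases t
      · simp
      · simp [hp]
    have e4 : p ((SS.toLD (opV sf v₀)).mul ((SS.toLD (opV sf v₀)).mul
        ((SS.toLD (opV sf v₀)).mul (Sh3.s β, v) (Sh3.q ε' r', w)) (Sh3.q ε'' r'', x))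
        (Sh3.q ε''' r''', y)).2 = xor (p ((SS.toLD (opV sf v₀)).mul
        ((SS.toLD (opV sf v₀)).mul (Sh3.s β, v) (Sh3.q ε' r', w)) (Sh3.q ε'' r'', x)).2)
        (tt (act (act β r') r'') r''') := e3 _ _
    have e5 : hh sf v₀ p ((SS.toLD (opV sf v₀)).mul (Sh3.s β, v) (Sh3.q ε' r', w))
        (Sh3.q ε'' r'', x) (Sh3.q ε''' r''', y) = Hf ε'' ε''' (p
        ((SS.toLD (opV sf v₀)).mul ((SS.toLD (opV sf v₀)).mul
        ((SS.toLD (opV sf v₀)).mul (Sh3.s β, v) (Sh3.q ε' r', w)) (Sh3.q ε'' r'', x))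
        (Sh3.q ε''' r''', y)).2) := rfl
    have e6 : hh sf v₀ p (Sh3.s β, v) (Sh3.q ε' r', w)
        ((SS.toLD (opV sf v₀)).mul (Sh3.q ε'' r'', x) (Sh3.q ε''' r''', y)) =
        Hf ε' (xor ε'' ε''') (p ((SS.toLD (opV sf v₀)).mul
        ((SS.toLD (opV sf v₀)).mul (Sh3.s β, v) (Sh3.q ε' r', w))
        ((SS.toLD (opV sf v₀)).mul (Sh3.q ε'' r'', x) (Sh3.q ε''' r''', y))).2) := rfl
    have e7 : hh sf v₀ p (Sh3.s β, v)
        ((SS.toLD (opV sf v₀)).mul (Sh3.q ε' r', w) (Sh3.q ε'' r'', x)) (Sh3.q ε''' r''', y) =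
        Hf (xor ε' ε'') ε''' (p ((SS.toLD (opV sf v₀)).mul ((SS.toLD (opV sf v₀)).mul
        (Sh3.s β, v) ((SS.toLD (opV sf v₀)).mul (Sh3.q ε' r', w) (Sh3.q ε'' r'', x)))
        (Sh3.q ε''' r''', y)).2) := rfl
    rw [e5, e6, e7, ← e1, ← e2, e4]
    exact Hf_two _ _ _ _ _

/-- The component in the centre. -/
def zet (n : NN) : ZMod 2 := Multiplicative.toAdd n.2

/-- The sign. -/
def nu (n : NN) : ZMod 2 := Multiplicative.toAdd (sgn n.1)

theorem zet_mul (a b : NN) : zet (a * b) = zet a + zet b := rfl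

theorem zet_Th : ∀ (ε t : Bool) (n : NN), zet (Th ε t n) = zet n + if t then nu n else 0 := by
  decide

theorem nu_one : ∀ H : NN, (∀ n : NN, Th true false (Th true false n) * H =
    H * Th false false n) → nu H = 1 := by
  decide

theorem nu_zero : ∀ H : NN, (∀ n : NN, Th false false (Th false false n) * H =
    H * Th false false n) → nu H = 0 := by
  decide

theorem arith {a b c d e f g i j k u : ZMod 2} (E1 : a + b = (c + u) + d) (E2 : e + b = a + f)
    (E3 : g + i = e + f) (E4 : d + d = j + d) (E5 : k + i = i + i) : g + k = c + j + u := by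
  have h2 : (2 : ZMod 2) = 0 := rfl
  linear_combination E1 + E2 + E3 + E4 + E5 - (b - f) * h2

theorem colouring_of_A4 (hA : A4 (muL (SS.toLD (opV sf v₀)))) :
    ∃ c : V → ZMod 2, ∀ v, c (sf v) = c v + 1 := by
  obtain ⟨h, H1, H2⟩ := of_A4 _ hA
  have P' : ∀ a b c d, zet (h ((SS.toLD (opV sf v₀)).mul a b) c d) +
      zet (h a b ((SS.toLD (opV sf v₀)).mul c d)) =
      zet ((SS.toLD (opV sf v₀)).lam ((SS.toLD (opV sf v₀)).mul ((SS.toLD (opV sf v₀)).mul a b) c)
        d (h a b c)) + zet (h a ((SS.toLD (opV sf v₀)).mul b c) d) := by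
    intro a b c d
    have h1 := congrArg zet (H2 a b c d)
    rwa [zet_mul, zet_mul] at h1
  have n1 : ∀ v, nu (h (.s true, v) (.q true 0, v₀) (.q true 0, v₀)) = 1 := fun v =>
    nu_one _ fun n => H1 (.s true, v) (.q true 0, v₀) (.q true 0, v₀) n
  have n0 : ∀ v, nu (h (.s true, v) (.q false 0, v₀) (.q false 0, v₀)) = 0 := fun v =>
    nu_zero _ fun n => H1 (.s true, v) (.q false 0, v₀) (.q false 0, v₀) n
  have z0 : ∀ n, zet (Th false false n) = zet n := fun n => (zet_Th false false n).trans (add_zero _)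
  have z1 : ∀ n, zet (Th true false n) = zet n := fun n => (zet_Th true false n).trans (add_zero _)
  have z2 : ∀ n, zet (Th false true n) = zet n + nu n := fun n => zet_Th false true n
  have step1 : ∀ v, zet (h (.s false, v) (.q true 0, v₀) (.q true 0, v₀)) +
      zet (h (.s false, v) (.q false 0, v₀) (.q false 0, v₀)) =
      zet (h (.s true, v) (.q true 0, v₀) (.q true 0, v₀)) +
      zet (h (.s true, v) (.q false 0, v₀) (.q false 0, v₀)) + 0 := by
    intro v
    have E1 : zet (h (.s true, v) (.q true 0, v₀) (.q false 1, v₀)) +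
        zet (h (.s true, v) (.q true 0, v₀) (.q true 1, v₀)) =
        zet (Th false false (h (.s true, v) (.q true 0, v₀) (.q true 0, v₀))) +
        zet (h (.s true, v) (.q false 0, v₀) (.q false 1, v₀)) :=
      P' (.s true, v) (.q true 0, v₀) (.q true 0, v₀) (.q false 1, v₀)
    have E2 : zet (h (.s true, v) (.q false 1, v₀) (.q true 0, v₀)) +
        zet (h (.s true, v) (.q true 0, v₀) (.q true 1, v₀)) =
        zet (Th true false (h (.s true, v) (.q true 0, v₀) (.q false 1, v₀))) +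
        zet (h (.s true, v) (.q true 1, v₀) (.q true 0, v₀)) :=
      P' (.s true, v) (.q true 0, v₀) (.q false 1, v₀) (.q true 0, v₀)
    have E3 : zet (h (.s false, v) (.q true 0, v₀) (.q true 0, v₀)) +
        zet (h (.s true, v) (.q false 1, v₀) (.q false 0, v₀)) =
        zet (Th true false (h (.s true, v) (.q false 1, v₀) (.q true 0, v₀))) +
        zet (h (.s true, v) (.q true 1, v₀) (.q true 0, v₀)) :=
      P' (.s true, v) (.q false 1, v₀) (.q true 0, v₀) (.q true 0, v₀)
    have E4 : zet (h (.s true, v) (.q false 0, v₀) (.q false 1, v₀)) +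
        zet (h (.s true, v) (.q false 0, v₀) (.q false 1, v₀)) =
        zet (Th false false (h (.s true, v) (.q false 0, v₀) (.q false 0, v₀))) +
        zet (h (.s true, v) (.q false 0, v₀) (.q false 1, v₀)) :=
      P' (.s true, v) (.q false 0, v₀) (.q false 0, v₀) (.q false 1, v₀)
    have E5 : zet (h (.s false, v) (.q false 0, v₀) (.q false 0, v₀)) +
        zet (h (.s true, v) (.q false 1, v₀) (.q false 0, v₀)) =
        zet (Th false false (h (.s true, v) (.q false 1, v₀) (.q false 0, v₀))) +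
        zet (h (.s true, v) (.q false 1, v₀) (.q false 0, v₀)) :=
      P' (.s true, v) (.q false 1, v₀) (.q false 0, v₀) (.q false 0, v₀)
    rw [z0] at E1 E4 E5
    rw [z1] at E2 E3
    exact arith (E1.trans (by rw [add_zero])) E2 E3 E4 E5
  have step2 : ∀ v, zet (h (.s false, sf v) (.q true 0, v₀) (.q true 0, v₀)) +
      zet (h (.s false, sf v) (.q false 0, v₀) (.q false 0, v₀)) =
      zet (h (.s true, v) (.q true 0, v₀) (.q true 0, v₀)) +
      zet (h (.s true, v) (.q false 0, v₀) (.q false 0, v₀)) + 1 := by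
    intro v
    have E1 : zet (h (.s true, v) (.q true 0, v₀) (.q false 2, v₀)) +
        zet (h (.s true, v) (.q true 0, v₀) (.q true 2, v₀)) =
        zet (Th false true (h (.s true, v) (.q true 0, v₀) (.q true 0, v₀))) +
        zet (h (.s true, v) (.q false 0, v₀) (.q false 2, v₀)) :=
      P' (.s true, v) (.q true 0, v₀) (.q true 0, v₀) (.q false 2, v₀)
    have E2 : zet (h (.s true, v) (.q false 2, v₀) (.q true 0, v₀)) +
        zet (h (.s true, v) (.q true 0, v₀) (.q true 2, v₀)) =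
        zet (Th true false (h (.s true, v) (.q true 0, v₀) (.q false 2, v₀))) +
        zet (h (.s true, v) (.q true 2, v₀) (.q true 0, v₀)) :=
      P' (.s true, v) (.q true 0, v₀) (.q false 2, v₀) (.q true 0, v₀)
    have E3 : zet (h (.s false, sf v) (.q true 0, v₀) (.q true 0, v₀)) +
        zet (h (.s true, v) (.q false 2, v₀) (.q false 0, v₀)) =
        zet (Th true false (h (.s true, v) (.q false 2, v₀) (.q true 0, v₀))) +
        zet (h (.s true, v) (.q true 2, v₀) (.q true 0, v₀)) :=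
      P' (.s true, v) (.q false 2, v₀) (.q true 0, v₀) (.q true 0, v₀)
    have E4 : zet (h (.s true, v) (.q false 0, v₀) (.q false 2, v₀)) +
        zet (h (.s true, v) (.q false 0, v₀) (.q false 2, v₀)) =
        zet (Th false true (h (.s true, v) (.q false 0, v₀) (.q false 0, v₀))) +
        zet (h (.s true, v) (.q false 0, v₀) (.q false 2, v₀)) :=
      P' (.s true, v) (.q false 0, v₀) (.q false 0, v₀) (.q false 2, v₀)
    have E5 : zet (h (.s false, sf v) (.q false 0, v₀) (.q false 0, v₀)) +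
        zet (h (.s true, v) (.q false 2, v₀) (.q false 0, v₀)) =
        zet (Th false false (h (.s true, v) (.q false 2, v₀) (.q false 0, v₀))) +
        zet (h (.s true, v) (.q false 2, v₀) (.q false 0, v₀)) :=
      P' (.s true, v) (.q false 2, v₀) (.q false 0, v₀) (.q false 0, v₀)
    rw [z2, n1] at E1
    rw [z2, n0, add_zero] at E4
    rw [z0] at E5
    rw [z1] at E2 E3
    exact arith E1 E2 E3 E4 E5
  refine ⟨fun v => zet (h (.s true, v) (.q true 0, v₀) (.q true 0, v₀)) +
      zet (h (.s true, v) (.q false 0, v₀) (.q false 0, v₀)), fun v => ?_⟩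
  have h3 := step1 (sf v)
  rw [add_zero] at h3
  exact h3.symm.trans (step2 v)

end Pool.Agent.H93.Hofo
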