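import Pool.Agent.H93.Hofo.Model

/-!
# The `A_4` condition for `L × BN`: sufficiency
-/

open CategoryTheory MonoidalCategory CartesianMonoidalCategory Opposite Simplicial

namespace Pool.Agent.H93.Hofo

noncomputable section

/-- The vertex `i` of a simplex. -/
def vtx {Z : SSet.{0}} {k : SimplexCategoryᵒᵖ} (z : Z.obj k) (i : Fin (k.unop.len + 1)) :
    Z.obj (op ⦋0⦌) :=
  Z.map (SimplexCategory.const ⦋0⦌ k.unop i).op z

theorem vtx_map {Z : SSet.{0}} {k l : SimplexCategoryᵒᵖ} (θ : k ⟶ l) (z : Z.obj k)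
    (i : Fin (l.unop.len + 1)) : vtx (Z.map θ z) i = vtx z (θ.unop.toOrderHom i) := by
  unfold vtx
  rw [← Functor.map_comp_apply]
  rfl

theorem vtx_app {Z Y : SSet.{0}} (g : Z ⟶ Y) {k : SimplexCategoryᵒᵖ} (z : Z.obj k)
    (i : Fin (k.unop.len + 1)) : vtx (g.app k z) i = g.app _ (vtx z i) :=
  (NatTrans.naturality_apply g _ z).symm

variable {L N : Type} [Group N]

theorem XL_ext {k : SimplexCategoryᵒᵖ} {x y : (XL L N).obj k} (h1 : x.1 = y.1)
    (h2 : ∀ i j, x.2.1 i j = y.2.1 i j) : x = y :=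
  Prod.ext h1 (BN_ext h2)

/-- The map obtained from `f : Z → L × BN` by the gauge transformation `u`. -/
def twist {Z : SSet.{0}} (f : Z ⟶ XL L N) (u : Z.obj (op ⦋0⦌) → N) : Z ⟶ XL L N where
  app k := ↾fun z => ((f.app k z).1, ⟨fun i j => (u (vtx z i))⁻¹ * (f.app k z).2.1 i j * u (vtx z j),
    fun i j l => by
      have h := (f.app k z).2.2 i j l
      beta_reduce
      rw [← h]
      group⟩)
  naturality k l θ := by
    apply ConcreteCategory.hom_ext
    intro z
    have h1 : f.app l (Z.map θ z) = (XL L N).map θ (f.app k z) := NatTrans.naturality_apply f θ z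
    have h2 : (f.app l (Z.map θ z)).1 = (f.app k z).1 :=
      congrArg (fun x : (XL L N).obj l => x.1) h1
    refine XL_ext (by exact h2) (fun i j => ?_)
    change (u (vtx (Z.map θ z) i))⁻¹ * (f.app l (Z.map θ z)).2.1 i j * u (vtx (Z.map θ z) j) = _
    rw [vtx_map, vtx_map, h1]
    rfl

theorem comp_twist {Z Y : SSet.{0}} (g : Y ⟶ Z) (f : Z ⟶ XL L N) (u : Z.obj (op ⦋0⦌) → N) :
    g ≫ twist f u = twist (g ≫ f) (fun y => u (g.app _ y)) := by
  ext k y
  refine XL_ext rfl fun i j => ?_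
  change (u (vtx (g.app k y) i))⁻¹ * _ * u (vtx (g.app k y) j) = _
  rw [vtx_app, vtx_app]
  rfl

theorem twist_twist {Z : SSet.{0}} (f : Z ⟶ XL L N) (u w : Z.obj (op ⦋0⦌) → N) :
    twist (twist f u) w = twist f (fun z => u z * w z) := by
  ext k z
  refine XL_ext rfl fun i j => ?_
  change (w (vtx z i))⁻¹ * ((u (vtx z i))⁻¹ * (f.app k z).2.1 i j * u (vtx z j)) * w (vtx z j) =
    (u (vtx z i) * w (vtx z i))⁻¹ * (f.app k z).2.1 i j * (u (vtx z j) * w (vtx z j))
  group

theorem twist_one {Z : SSet.{0}} (f : Z ⟶ XL L N) : twist f (fun _ => 1) = f := by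
  ext k z
  refine XL_ext rfl fun i j => ?_
  change (1 : N)⁻¹ * (f.app k z).2.1 i j * 1 = (f.app k z).2.1 i j
  group

/-- The label of the value of a map at a vertex. -/
def lb {Y : SSet.{0}} (a : Y ⟶ XL L N) (y : Y.obj (op ⦋0⦌)) : L := (a.app _ y).1

theorem lb_vtx {Y : SSet.{0}} (a : Y ⟶ XL L N) {k : SimplexCategoryᵒᵖ} (y : Y.obj k)
    (i : Fin (k.unop.len + 1)) : lb a (vtx y i) = (a.app k y).1 := by
  unfold lb
  rw [← vtx_app]
  rfl

/-- The homotopy from `F` to `twist F w`. -/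
def pth {Y : SSet.{0}} (F : Y ⟶ XL L N) (w : Y.obj (op ⦋0⦌) → N) : Y ⊗ Δ[1] ⟶ XL L N :=
  twist (fst Y Δ[1] ≫ F) (fun p => if p.2 0 = 0 then 1 else w p.1)

theorem pth_htpy {Y : SSet.{0}} (F : Y ⟶ XL L N) (w : Y.obj (op ⦋0⦌) → N) :
    IsHtpy F (twist F w) (pth F w) := by
  constructor
  · unfold pth
    rw [comp_twist]
    refine (congrArg (twist (SSet.ι₀ ≫ fst Y Δ[1] ≫ F)) (funext fun y => ?_)).trans (twist_one _)
    exact if_pos rfl
  · unfold pth
    rw [comp_twist]
    refine congrArg (twist (SSet.ι₁ ≫ fst Y Δ[1] ≫ F)) (funext fun y => ?_)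
    exact if_neg (show (1 : Fin 2) ≠ 0 by decide)

theorem pth_composite {Y : SSet.{0}} (F : Y ⟶ XL L N) (w w' : Y.obj (op ⦋0⦌) → N) :
    IsComposite (pth F w) (pth (twist F w) w') (pth F (fun y => w y * w' y)) := by
  refine ⟨twist (fst Y Δ[2] ≫ F) (fun p => if p.2 0 = 0 then 1 else
    if p.2 0 = 1 then w p.1 else w p.1 * w' p.1), ?_, ?_, ?_⟩
  · unfold pth
    rw [comp_twist]
    refine congrArg (twist (fst Y Δ[1] ≫ F)) (funext fun p => ?_)
    change (if (2 : Fin 3).succAbove (p.2 0) = 0 then 1 else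
      if (2 : Fin 3).succAbove (p.2 0) = 1 then w p.1 else w p.1 * w' p.1) = _
    generalize p.2 0 = a
    fin_cases a <;> rfl
  · have h1 : pth (twist F w) w' = twist (fst Y Δ[1] ≫ F) (fun p =>
        w p.1 * if p.2 0 = 0 then 1 else w' p.1) := by
      unfold pth
      rw [comp_twist, twist_twist]
      rfl
    rw [h1, comp_twist]
    refine congrArg (twist (fst Y Δ[1] ≫ F)) (funext fun p => ?_)
    change (if (0 : Fin 3).succAbove (p.2 0) = 0 then 1 else
      if (0 : Fin 3).succAbove (p.2 0) = 1 then w p.1 else w p.1 * w' p.1) = _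
    generalize p.2 0 = a
    fin_cases a
    · exact (mul_one _).symm
    · rfl
  · unfold pth
    rw [comp_twist]
    refine congrArg (twist (fst Y Δ[1] ≫ F)) (funext fun p => ?_)
    change (if (1 : Fin 3).succAbove (p.2 0) = 0 then 1 else
      if (1 : Fin 3).succAbove (p.2 0) = 1 then w p.1 else w p.1 * w' p.1) = _
    generalize p.2 0 = a
    fin_cases a <;> rfl

theorem inst_twist {Y : SSet.{0}} (F : Pow (XL L N) 3 ⟶ XL L N)
    (w : (Pow (XL L N) 3).obj (op ⦋0⦌) → N) (a b c : Y ⟶ XL L N) :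
    alphaAt (pth F w) a b c = pth (powLift ![a, b, c] ≫ F)
      (fun y => w ((powLift ![a, b, c]).app _ y)) := by
  unfold alphaAt pth
  rw [comp_twist]
  rfl

theorem mul_twist {Y : SSet.{0}} (D : LD L N) (F d : Y ⟶ XL L N) (w : Y.obj (op ⦋0⦌) → N) :
    mulMap (muL D) (twist F w) d = twist (mulMap (muL D) F d) (fun y => D.lam (lb F y) (lb d y) (w y)) := by
  ext k y
  refine XL_ext rfl fun i j => ?_
  change D.lam (F.app k y).1 (d.app k y).1 ((w (vtx y i))⁻¹ * (F.app k y).2.1 i j * w (vtx y j)) =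
    (D.lam (lb F (vtx y i)) (lb d (vtx y i)) (w (vtx y i)))⁻¹ *
      D.lam (F.app k y).1 (d.app k y).1 ((F.app k y).2.1 i j) *
      D.lam (lb F (vtx y j)) (lb d (vtx y j)) (w (vtx y j))
  rw [lb_vtx, lb_vtx, lb_vtx, lb_vtx]
  simp only [map_mul, map_inv]

theorem mul_twist' {Y : SSet.{0}} (D : LD L N) (a F : Y ⟶ XL L N) (w : Y.obj (op ⦋0⦌) → N) :
    mulMap (muL D) a (twist F w) = mulMap (muL D) a F := rfl

theorem mul_pth_cst {Y : SSet.{0}} (D : LD L N) (F d : Y ⟶ XL L N) (w : Y.obj (op ⦋0⦌) → N) :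
    mulMap (muL D) (pth F w) (constHtpy d) =
      pth (mulMap (muL D) F d) (fun y => D.lam (lb F y) (lb d y) (w y)) := by
  unfold pth constHtpy
  rw [mul_twist]
  refine congrArg (twist (fst Y Δ[1] ≫ mulMap (muL D) F d)) (funext fun p => ?_)
  change D.lam (lb F p.1) (lb d p.1) (if p.2 0 = 0 then 1 else w p.1) = _
  split_ifs
  · exact map_one _
  · rfl

theorem mul_cst_pth {Y : SSet.{0}} (D : LD L N) (a F : Y ⟶ XL L N) (w : Y.obj (op ⦋0⦌) → N) :
    mulMap (muL D) (constHtpy a) (pth F w) = pth (mulMap (muL D) a F) (fun _ => 1) := by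
  have h1 : pth (mulMap (muL D) a F) (fun _ => 1) = fst Y Δ[1] ≫ mulMap (muL D) a F := by
    unfold pth
    simp only [ite_self]
    exact twist_one _
  rw [h1]
  rfl

theorem htpyRelEnds_refl {X Y : SSet.{0}} (K : Y ⊗ Δ[1] ⟶ X) : HtpyRelEnds K K :=
  ⟨fst _ _ ≫ K, rfl, rfl, rfl, rfl⟩

/-- A sufficient condition for `A_4`. -/
theorem A4_of (D : LD L N) (assoc : ∀ a b c, D.mul (D.mul a b) c = D.mul a (D.mul b c))
    (h : L → L → L → N)
    (H1 : ∀ a b c n, D.lam (D.mul a b) c (D.lam a b n) * h a b c =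
      h a b c * D.lam a (D.mul b c) n)
    (H2 : ∀ a b c d, h (D.mul a b) c d * h a b (D.mul c d) =
      D.lam (D.mul (D.mul a b) c) d (h a b c) * h a (D.mul b c) d) : A4 (muL D) := by
  have key : ∀ {Y : SSet.{0}} (a b c : Y ⟶ XL L N), mulMap (muL D) a (mulMap (muL D) b c) =
      twist (mulMap (muL D) (mulMap (muL D) a b) c) (fun y => h (lb a y) (lb b y) (lb c y)) := by
    intro Y a b c
    ext k y
    refine XL_ext (assoc _ _ _).symm fun i j => ?_
    change D.lam (a.app k y).1 (D.mul (b.app k y).1 (c.app k y).1) ((a.app k y).2.1 i j) =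
      (h (lb a (vtx y i)) (lb b (vtx y i)) (lb c (vtx y i)))⁻¹ *
        D.lam (D.mul (a.app k y).1 (b.app k y).1) (c.app k y).1
          (D.lam (a.app k y).1 (b.app k y).1 ((a.app k y).2.1 i j)) *
        h (lb a (vtx y j)) (lb b (vtx y j)) (lb c (vtx y j))
    simp only [lb_vtx]
    rw [mul_assoc, H1, inv_mul_cancel_left]
  have hα : ∀ {Y : SSet.{0}} (a b c : Y ⟶ XL L N),
      alphaAt (pth (mulMap (muL D) (mulMap (muL D) (proj 0) (proj 1)) (proj 2))
        (fun y => h (lb (proj 0) y) (lb (proj 1) y) (lb (proj 2) y))) a b c =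
      pth (mulMap (muL D) (mulMap (muL D) a b) c) (fun y => h (lb a y) (lb b y) (lb c y)) := by
    intro Y a b c
    rw [inst_twist]
    rfl
  refine ⟨pth (mulMap (muL D) (mulMap (muL D) (proj 0) (proj 1)) (proj 2))
    (fun y => h (lb (proj 0) y) (lb (proj 1) y) (lb (proj 2) y)), ?_, ?_⟩
  · have h1 := pth_htpy (mulMap (muL D) (mulMap (muL D) (proj (X := XL L N) (n := 3) 0) (proj 1)) (proj 2))
      (fun y => h (lb (proj 0) y) (lb (proj 1) y) (lb (proj 2) y))
    rw [← key] at h1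
    exact h1
  · rw [hα, hα, hα, hα, hα, mul_pth_cst, mul_cst_pth]
    have e1 := key (mulMap (muL D) (proj (X := XL L N) (n := 4) 0) (proj 1)) (proj 2) (proj 3)
    have e2 := congrArg (fun F => mulMap (muL D) F (proj 3))
      (key (proj (X := XL L N) (n := 4) 0) (proj 1) (proj 2))
    simp only [mul_twist] at e2
    have e3 := key (proj (X := XL L N) (n := 4) 0) (mulMap (muL D) (proj 1) (proj 2)) (proj 3)
    rw [e2, twist_twist] at e3
    rw [e1, e2, e3]
    refine ⟨_, _, _, pth_composite _ _ _, pth_composite _ _ _, pth_composite _ _ _, ?_⟩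
    convert htpyRelEnds_refl _ using 3 with y
    change D.lam (D.mul (D.mul (lb (proj 0) y) (lb (proj 1) y)) (lb (proj 2) y)) (lb (proj 3) y)
        (h (lb (proj 0) y) (lb (proj 1) y) (lb (proj 2) y)) *
        h (lb (proj 0) y) (D.mul (lb (proj 1) y) (lb (proj 2) y)) (lb (proj 3) y) * 1 = _
    rw [mul_one, ← H2]
    rfl

end

end Pool.Agent.H93.Hofo
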