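import Pool.Agent.H93.Hofo.Defs

/-!
# Universal properties of the interpretation of formulas

`Force μ φ u` says that the map `u : E → X^n` lifts to `τ(φ)`.
-/

open CategoryTheory MonoidalCategory CartesianMonoidalCategory Opposite Simplicial

namespace Pool.Agent.H93.Hofo

noncomputable section

/-- A simplex of a product. -/
def pr {A B : SSet.{0}} {k : SimplexCategoryᵒᵖ} (a : A.obj k) (b : B.obj k) : (A ⊗ B).obj k :=
  (a, b)

/-- The simplex `id` of `Δ[k]`. -/
def idS (k : SimplexCategoryᵒᵖ) : (SSet.stdSimplex.{0}.obj k.unop).obj k :=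
  SSet.stdSimplex.objEquiv.symm (𝟙 k.unop)

theorem smap_idS {B : SSet.{0}} {k : SimplexCategoryᵒᵖ} (b : B.obj k) :
    (smap b).app k (idS k) = b := by
  change B.map (𝟙 k.unop).op b = b
  simp

theorem std_map_idS {k l : SimplexCategoryᵒᵖ} (θ : k ⟶ l) :
    (SSet.stdSimplex.{0}.map θ.unop).app l (idS l) =
      (SSet.stdSimplex.{0}.obj k.unop).map θ (idS k) := by
  apply SSet.stdSimplex.objEquiv.injective
  change 𝟙 _ ≫ θ.unop = θ.unop ≫ 𝟙 _
  simp

theorem smap_comp {B C : SSet.{0}} {k : SimplexCategoryᵒᵖ} (b : B.obj k) (f : B ⟶ C) :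
    smap b ≫ f = smap (f.app k b) :=
  SSet.yonedaEquiv_symm_comp b f

theorem DSimplex.sec_congr {A B C Q : SSet.{0}} {f : A ⟶ B} {g : A ⟶ C} {q : Q ⟶ C}
    {k : SimplexCategoryᵒᵖ} {s t : DSimplex f g q k} (e : s = t) (l : SimplexCategoryᵒᵖ)
    (x : (SSet.stdSimplex.obj k.unop).obj l) (a : A.obj l)
    (h : (smap s.base).app l x = f.app l a) (h' : (smap t.base).app l x = f.app l a) :
    s.sec.app l ⟨(x, a), h⟩ = t.sec.app l ⟨(x, a), h'⟩ := by
  subst e
  rfl

/-- The universal property of `DProd`. -/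
theorem DProd_lift {A B C Q Y : SSet.{0}} (f : A ⟶ B) (g : A ⟶ C) (q : Q ⟶ C) (u : Y ⟶ B) :
    (∃ G : Y ⟶ DProd f g q, G ≫ DProd.hom f g q = u) ↔
      ∃ F : FP u f ⟶ Q, F ≫ q = FP.snd u f ≫ g := by
  constructor
  · rintro ⟨G, rfl⟩
    refine ⟨{
      app := fun k => ↾fun p => (G.app k p.1.1).sec.app k ⟨(idS k, p.1.2), by
        rw [smap_idS]
        exact p.2⟩
      naturality := ?_ }, ?_⟩
    · intro k l θ
      apply ConcreteCategory.hom_ext
      rintro ⟨⟨y, a⟩, h⟩
      have e : G.app l (Y.map θ y) = (DProd f g q).map θ (G.app k y) :=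
        NatTrans.naturality_apply G θ y
      have h1 : (smap (G.app k y).base).app k (idS k) = f.app k a := by
        rw [smap_idS]
        exact h
      have h2 : (smap (G.app k y).base).app l ((SSet.stdSimplex.obj k.unop).map θ (idS k)) =
          f.app l (A.map θ a) := by
        have e1 := NatTrans.naturality_apply (smap (G.app k y).base) θ (idS k)
        have e2 := NatTrans.naturality_apply f θ a
        exact e1.trans ((congrArg (B.map θ) h1).trans e2.symm)
      have h3 : (G.app k y).sec.app l ⟨((SSet.stdSimplex.obj k.unop).map θ (idS k), A.map θ a), h2⟩ =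
          Q.map θ ((G.app k y).sec.app k ⟨(idS k, a), h1⟩) :=
        NatTrans.naturality_apply (G.app k y).sec θ ⟨(idS k, a), h1⟩
      have h4 : (smap ((DProd f g q).map θ (G.app k y) : DSimplex f g q l).base).app l (idS l) =
          f.app l (A.map θ a) := by
        rw [smap_idS]
        exact (congrArg (B.map θ) h).trans (NatTrans.naturality_apply f θ a).symm
      refine (DSimplex.sec_congr e l (idS l) (A.map θ a) _ h4).trans (Eq.trans ?_ h3)
      exact congrArg ((G.app k y).sec.app l) (Subtype.ext (Prod.ext (std_map_idS θ) rfl))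
    · ext k ⟨⟨y, a⟩, h⟩
      have h1 : (smap (G.app k y).base).app k (idS k) = f.app k a := by
        rw [smap_idS]
        exact h
      exact ConcreteCategory.congr_hom (NatTrans.congr_app (G.app k y).comm k) ⟨(idS k, a), h1⟩
  · rintro ⟨F, hF⟩
    refine ⟨{
      app := fun k => ↾fun y =>
        { base := u.app k y
          sec := FP.map f (smap y) (smap_comp y u) ≫ F
          comm := by
            rw [Category.assoc, hF]
            rfl }
      naturality := ?_ }, ?_⟩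
    · intro k l θ
      apply ConcreteCategory.hom_ext
      intro y
      refine DSimplex.ext' (by exact NatTrans.naturality_apply u θ y) (fun m x a h h' => ?_)
      refine congrArg (F.app m) (Subtype.ext (Prod.ext ?_ rfl))
      change (smap (Y.map θ y)).app m x = (smap y).app m ((SSet.stdSimplex.map θ.unop).app m x)
      rw [← map_smap]
      rfl
    · rfl

/-- The map into a fibre product. -/
def FP.lift {A B C Y : SSet.{0}} {f : A ⟶ B} {g : C ⟶ B} (a : Y ⟶ A) (c : Y ⟶ C)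
    (h : a ≫ f = c ≫ g) : Y ⟶ FP f g where
  app k := ↾fun y => ⟨(a.app k y, c.app k y), ConcreteCategory.congr_hom (NatTrans.congr_app h k) y⟩
  naturality k l θ := by
    apply ConcreteCategory.hom_ext
    intro y
    exact Subtype.ext (Prod.ext (by exact NatTrans.naturality_apply a θ y)
      (by exact NatTrans.naturality_apply c θ y))

theorem FP.condition {A B C : SSet.{0}} (f : A ⟶ B) (g : C ⟶ B) :
    FP.fst f g ≫ f = FP.snd f g ≫ g := by
  ext k p
  exact p.2

variable {X : SSet.{0}} (μ : X ⊗ X ⟶ X)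

/-- The map `u` lifts to the interpretation of `φ`. -/
def Force {n : ℕ} (φ : Fml n) {E : SSet.{0}} (u : E ⟶ Pow X n) : Prop :=
  ∃ g : E ⟶ (tau μ φ).left, g ≫ (tau μ φ).hom = u

/-- The map `(u, v) : E → X^n × X = X^(n+1)`. -/
def snoc {n : ℕ} {E : SSet.{0}} (u : E ⟶ Pow X n) (v : E ⟶ X) : E ⟶ Pow X (n + 1) where
  app k := ↾fun e => Fin.snoc (α := fun _ => X.obj k) (u.app k e) (v.app k e)
  naturality k l θ := by
    apply ConcreteCategory.hom_ext
    intro e
    funext i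
    change (Fin.snoc (α := fun _ => X.obj l) (u.app l (E.map θ e)) (v.app l (E.map θ e)) : _) i =
      X.map θ ((Fin.snoc (α := fun _ => X.obj k) (u.app k e) (v.app k e) : _) i)
    refine Fin.lastCases ?_ (fun j => ?_) i
    · exact (Fin.snoc_last (α := fun _ => X.obj l) (v.app l (E.map θ e))
        (u.app l (E.map θ e))).trans ((NatTrans.naturality_apply v θ e).trans
          (congrArg (X.map θ) (Fin.snoc_last (α := fun _ => X.obj k) (v.app k e)
            (u.app k e)).symm))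
    · exact (Fin.snoc_castSucc (α := fun _ => X.obj l) (v.app l (E.map θ e))
        (u.app l (E.map θ e)) j).trans ((congrFun (NatTrans.naturality_apply u θ e) j).trans
          (congrArg (X.map θ) (Fin.snoc_castSucc (α := fun _ => X.obj k) (v.app k e)
            (u.app k e) j).symm))

theorem snoc_dropLast {n : ℕ} {E : SSet.{0}} (u : E ⟶ Pow X n) (v : E ⟶ X) :
    snoc u v ≫ dropLast X n = u := by
  ext k e
  funext j
  exact Fin.snoc_castSucc (α := fun _ => X.obj k) (v.app k e) (u.app k e) j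

theorem snoc_eta {n : ℕ} {E : SSet.{0}} (u : E ⟶ Pow X (n + 1)) :
    snoc (u ≫ dropLast X n) (u ≫ proj (Fin.last n)) = u := by
  ext k e
  exact Fin.snoc_init_self (α := fun _ => X.obj k) (u.app k e)

theorem comp_snoc {n : ℕ} {E E' : SSet.{0}} (g : E' ⟶ E) (u : E ⟶ Pow X n) (v : E ⟶ X) :
    g ≫ snoc u v = snoc (g ≫ u) (g ≫ v) := rfl

variable {μ}

theorem Force.comp {n : ℕ} {φ : Fml n} {E E' : SSet.{0}} {u : E ⟶ Pow X n} (h : Force μ φ u)
    (g : E' ⟶ E) : Force μ φ (g ≫ u) := by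
  obtain ⟨f, rfl⟩ := h
  exact ⟨g ≫ f, Category.assoc _ _ _⟩

theorem force_top {n : ℕ} {E : SSet.{0}} (u : E ⟶ Pow X n) : Force μ Fml.top u :=
  ⟨u, Category.comp_id _⟩

theorem force_bot {n : ℕ} {E : SSet.{0}} {u : E ⟶ Pow X n} (h : Force μ Fml.bot u)
    (k : SimplexCategoryᵒᵖ) (e : E.obj k) : False := by
  obtain ⟨f, -⟩ := h
  exact Empty.elim (f.app k e)

theorem force_and {n : ℕ} {φ ψ : Fml n} {E : SSet.{0}} {u : E ⟶ Pow X n} :
    Force μ (Fml.and φ ψ) u ↔ Force μ φ u ∧ Force μ ψ u := by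
  constructor
  · rintro ⟨f, rfl⟩
    refine ⟨⟨f ≫ FP.fst (tau μ φ).hom (tau μ ψ).hom, rfl⟩,
      ⟨f ≫ FP.snd (tau μ φ).hom (tau μ ψ).hom, ?_⟩⟩
    exact congrArg (fun h => f ≫ h) (FP.condition (tau μ φ).hom (tau μ ψ).hom).symm
  · rintro ⟨⟨f, rfl⟩, ⟨g, hg⟩⟩
    exact ⟨FP.lift f g hg.symm, rfl⟩

theorem force_imp {n : ℕ} {φ ψ : Fml n} {E : SSet.{0}} {u : E ⟶ Pow X n} :
    Force μ (Fml.imp φ ψ) u ↔
      ∀ (E' : SSet.{0}) (g : E' ⟶ E), Force μ φ (g ≫ u) → Force μ ψ (g ≫ u) := by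
  refine (DProd_lift (tau μ φ).hom (tau μ φ).hom (tau μ ψ).hom u).trans ?_
  constructor
  · rintro ⟨F, hF⟩ E' g ⟨f, hf⟩
    refine ⟨FP.lift g f hf.symm ≫ F, ?_⟩
    rw [Category.assoc, hF]
    exact hf
  · intro h
    obtain ⟨F, hF⟩ := h (FP u (tau μ φ).hom) (FP.fst u (tau μ φ).hom)
      ⟨FP.snd u (tau μ φ).hom, (FP.condition u (tau μ φ).hom).symm⟩
    exact ⟨F, hF.trans (FP.condition u (tau μ φ).hom)⟩

theorem force_all {n : ℕ} {φ : Fml (n + 1)} {E : SSet.{0}} {u : E ⟶ Pow X n} :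
    Force μ (Fml.all φ) u ↔
      ∀ (E' : SSet.{0}) (g : E' ⟶ E) (v : E' ⟶ X), Force μ φ (snoc (g ≫ u) v) := by
  refine (DProd_lift (dropLast X n) (𝟙 (Pow X (n + 1))) (tau μ φ).hom u).trans ?_
  constructor
  · rintro ⟨F, hF⟩ E' g v
    refine ⟨FP.lift g (snoc (g ≫ u) v) (snoc_dropLast _ _).symm ≫ F, ?_⟩
    rw [Category.assoc, hF]
    rfl
  · intro h
    obtain ⟨F, hF⟩ := h (FP u (dropLast X n)) (FP.fst u (dropLast X n))
      (FP.snd u (dropLast X n) ≫ proj (Fin.last n))
    refine ⟨F, hF.trans ?_⟩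
    rw [FP.condition, snoc_eta]
    rfl

theorem force_ex {n : ℕ} {φ : Fml (n + 1)} {E : SSet.{0}} {u : E ⟶ Pow X n} :
    Force μ (Fml.ex φ) u ↔ ∃ v : E ⟶ X, Force μ φ (snoc u v) := by
  constructor
  · rintro ⟨f, rfl⟩
    exact ⟨(f ≫ (tau μ φ).hom) ≫ proj (Fin.last n), f, (snoc_eta (f ≫ (tau μ φ).hom)).symm⟩
  · rintro ⟨v, f, hf⟩
    refine ⟨f, ?_⟩
    change f ≫ (tau μ φ).hom ≫ dropLast X n = u
    rw [← Category.assoc, hf, snoc_dropLast]

/-- A homotopy as a map to the path space. -/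
def toPathS {E : SSet.{0}} (H : E ⊗ Δ[1] ⟶ X) : E ⟶ PathS X where
  app k := ↾fun e => (smap e ▷ Δ[1]) ≫ H
  naturality k l θ := by
    apply ConcreteCategory.hom_ext
    intro e
    change (smap (E.map θ e) ▷ Δ[1]) ≫ H = (SSet.stdSimplex.map θ.unop ▷ Δ[1]) ≫ (smap e ▷ Δ[1]) ≫ H
    rw [← map_smap, comp_whiskerRight, Category.assoc]

/-- A simplex of the path space as a map. -/
def pathHom {k : SimplexCategoryᵒᵖ} (γ : (PathS X).obj k) :
    SSet.stdSimplex.obj k.unop ⊗ Δ[1] ⟶ X := γ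

/-- A map to the path space as a homotopy. -/
def ofPathS {E : SSet.{0}} (γ : E ⟶ PathS X) : E ⊗ Δ[1] ⟶ X where
  app k := ↾fun p => (pathHom (γ.app k p.1)).app k (idS k, p.2)
  naturality k l θ := by
    apply ConcreteCategory.hom_ext
    rintro ⟨e, t⟩
    have e1 : pathHom (γ.app l (E.map θ e)) =
        (SSet.stdSimplex.map θ.unop ▷ Δ[1]) ≫ pathHom (γ.app k e) :=
      NatTrans.naturality_apply γ θ e
    have e2 := NatTrans.naturality_apply (pathHom (γ.app k e)) θ
      (pr (A := SSet.stdSimplex.obj k.unop) (B := Δ[1]) (idS k) t)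
    refine Eq.trans ?_ e2
    have e3 := ConcreteCategory.congr_hom (NatTrans.congr_app e1 l)
      (pr (A := SSet.stdSimplex.obj l.unop) (B := Δ[1]) (idS l) ((Δ[1]).map θ t))
    refine e3.trans ?_
    exact congrArg ((pathHom (γ.app k e)).app l) (Prod.ext (std_map_idS θ) rfl)

theorem force_eq {n : ℕ} {s t : Tm n} {E : SSet.{0}} {u : E ⟶ Pow X n} :
    Force μ (Fml.eq s t) u ↔
      ∃ H : E ⊗ Δ[1] ⟶ X, IsHtpy (u ≫ s.eval μ) (u ≫ t.eval μ) H := by
  constructor
  · rintro ⟨f, rfl⟩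
    refine ⟨ofPathS (f ≫ FP.snd (CartesianMonoidalCategory.lift (s.eval μ) (t.eval μ))
      (pathEnds X)), ?_, ?_⟩
    · ext k e
      exact (congrArg Prod.fst (f.app k e).2).symm
    · ext k e
      exact (congrArg Prod.snd (f.app k e).2).symm
  · rintro ⟨H, h0, h1⟩
    refine ⟨FP.lift u (toPathS H) ?_, rfl⟩
    ext k e
    · have e1 := ConcreteCategory.congr_hom (NatTrans.congr_app h0 k) e
      refine e1.symm.trans ?_
      exact congrArg (fun z => (SSet.ι₀ ≫ H).app k z) (smap_idS e).symm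
    · have e1 := ConcreteCategory.congr_hom (NatTrans.congr_app h1 k) e
      refine e1.symm.trans ?_
      exact congrArg (fun z => (SSet.ι₁ ≫ H).app k z) (smap_idS e).symm

/-- `E` is connected. -/
def Conn (E : SSet.{0}) : Prop :=
  Nonempty (E _⦋0⦌) ∧ ∀ (L : Type) (F : ∀ k, E.obj k → L),
    (∀ (k l : SimplexCategoryᵒᵖ) (θ : k ⟶ l) (z : E.obj k), F l (E.map θ z) = F k z) →
    ∀ (k l : SimplexCategoryᵒᵖ) (z : E.obj k) (w : E.obj l), F k z = F l w

/-- The component of a simplex. -/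
def cls {E : SSet.{0}} {k : SimplexCategoryᵒᵖ} (z : E.obj k) : SSet.π₀ E :=
  SSet.π₀.mk (E.map (SimplexCategory.const ⦋0⦌ k.unop 0).op z)

theorem cls_map {E : SSet.{0}} {k l : SimplexCategoryᵒᵖ} (θ : k ⟶ l) (z : E.obj k) :
    cls (E.map θ z) = cls z := by
  let a : ⦋1⦌ ⟶ k.unop := SimplexCategory.mkOfLe 0 (θ.unop.toOrderHom 0) (Fin.zero_le _)
  have h1 : E.δ 1 (E.map a.op z) = E.map (SimplexCategory.const ⦋0⦌ k.unop 0).op z := by
    change E.map (SimplexCategory.δ 1).op (E.map a.op z) = _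
    rw [← Functor.map_comp_apply, ← op_comp]
    exact congrArg (fun b : ⦋0⦌ ⟶ k.unop => E.map b.op z)
      (SimplexCategory.Hom.ext_zero_left _ _ (by rfl))
  have h2 : E.δ 0 (E.map a.op z) =
      E.map (SimplexCategory.const ⦋0⦌ l.unop 0).op (E.map θ z) := by
    change E.map (SimplexCategory.δ 0).op (E.map a.op z) = _
    rw [← Functor.map_comp_apply, ← Functor.map_comp_apply, ← op_comp]
    exact congrArg (fun b : ⦋0⦌ ⟶ k.unop => E.map b.op z)
      (SimplexCategory.Hom.ext_zero_left _ (SimplexCategory.const ⦋0⦌ l.unop 0 ≫ θ.unop) (by rfl))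
  have h3 := SSet.π₀.sound (SSet.Edge.mk' (E.map a.op z))
  rw [h1, h2] at h3
  exact h3.symm

/-- The connected component `c` of `E`. -/
def Comp (E : SSet.{0}) (c : SSet.π₀ E) : SSet.{0} where
  obj k := {z : E.obj k // cls z = c}
  map θ := ↾fun z => ⟨E.map θ z.1, (cls_map θ z.1).trans z.2⟩

/-- The inclusion of a component. -/
def Comp.incl (E : SSet.{0}) (c : SSet.π₀ E) : Comp E c ⟶ E where
  app k := ↾fun z => z.1

theorem cls_zero {E : SSet.{0}} (x : E _⦋0⦌) : cls x = SSet.π₀.mk x := by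
  unfold cls
  change SSet.π₀.mk (E.map (SimplexCategory.const ⦋0⦌ ⦋0⦌ 0).op x) = _
  rw [SimplexCategory.const_eq_id, op_id, Functor.map_id_apply]

theorem conn_comp (E : SSet.{0}) (c : SSet.π₀ E) : Conn (Comp E c) := by
  classical
  refine ⟨?_, fun L F hF => ?_⟩
  · obtain ⟨x, hx⟩ := SSet.π₀.mk_surjective c
    exact ⟨⟨x, (cls_zero x).trans hx⟩⟩
  · let G : E _⦋0⦌ → Option L := fun x => if h : cls x = c then some (F _ ⟨x, h⟩) else none
    have hG : ∀ ⦃x₀ x₁ : E _⦋0⦌⦄ (_ : E.Edge x₀ x₁), G x₀ = G x₁ := by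
      intro x y e
      have hx : cls x = cls e.edge :=
        (congrArg cls e.src_eq).symm.trans (cls_map (SimplexCategory.δ 1).op e.edge)
      have hy : cls y = cls e.edge :=
        (congrArg cls e.tgt_eq).symm.trans (cls_map (SimplexCategory.δ 0).op e.edge)
      by_cases h : cls e.edge = c
      · have hx' := hx.trans h
        have hy' := hy.trans h
        have e1 : F _ ⟨x, hx'⟩ = F _ ⟨e.edge, h⟩ := by
          rw [← hF _ _ (SimplexCategory.δ 1).op ⟨e.edge, h⟩]
          exact congrArg (F _) (Subtype.ext e.src_eq.symm)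
        have e2 : F _ ⟨y, hy'⟩ = F _ ⟨e.edge, h⟩ := by
          rw [← hF _ _ (SimplexCategory.δ 0).op ⟨e.edge, h⟩]
          exact congrArg (F _) (Subtype.ext e.tgt_eq.symm)
        simp only [G, dif_pos hx', dif_pos hy', e1, e2]
      · simp only [G, hx, hy, dif_neg h]
    have key : ∀ x y : (Comp E c) _⦋0⦌, F _ x = F _ y := by
      intro x y
      have e1 : SSet.π₀.lift G hG (SSet.π₀.mk x.1) = SSet.π₀.lift G hG (SSet.π₀.mk y.1) := by
        rw [← cls_zero, ← cls_zero, x.2, y.2]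
      rw [SSet.π₀.lift_mk, SSet.π₀.lift_mk] at e1
      simp only [G, dif_pos x.2, dif_pos y.2, Option.some.injEq] at e1
      exact e1
    intro k l z w
    rw [← hF _ _ (SimplexCategory.const ⦋0⦌ k.unop 0).op z,
      ← hF _ _ (SimplexCategory.const ⦋0⦌ l.unop 0).op w]
    exact key _ _

theorem force_of_comp {n : ℕ} {φ : Fml n} {E : SSet.{0}} {u : E ⟶ Pow X n}
    (h : ∀ c, Force μ φ (Comp.incl E c ≫ u)) : Force μ φ u := by
  choose f hf using h
  have key : ∀ (k : SimplexCategoryᵒᵖ) (c c' : SSet.π₀ E) (z : E.obj k) (h : cls z = c)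
      (h' : cls z = c'), (f c).app k ⟨z, h⟩ = (f c').app k ⟨z, h'⟩ := by
    intro k c c' z h h'
    obtain rfl : c = c' := h.symm.trans h'
    rfl
  refine ⟨{
    app := fun k => ↾fun z => (f (cls z)).app k ⟨z, rfl⟩
    naturality := ?_ }, ?_⟩
  · intro k l θ
    apply ConcreteCategory.hom_ext
    intro z
    refine (key l (cls (E.map θ z)) (cls z) (E.map θ z) rfl (cls_map θ z)).trans ?_
    exact NatTrans.naturality_apply (f (cls z)) θ ⟨z, rfl⟩
  · ext k z
    exact ConcreteCategory.congr_hom (NatTrans.congr_app (hf (cls z)) k) ⟨z, rfl⟩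

/-- The side of the coproduct in which a simplex lies. -/
def isL {P Q : SSet.{0}} {k : SimplexCategoryᵒᵖ} (x : (SumS P Q).obj k) : Bool :=
  Sum.isLeft (α := P.obj k) (β := Q.obj k) x

theorem isL_map {P Q : SSet.{0}} {k l : SimplexCategoryᵒᵖ} (θ : k ⟶ l) (x : (SumS P Q).obj k) :
    isL ((SumS P Q).map θ x) = isL x := by
  rcases x with x | x <;> rfl

/-- A map to the coproduct `P ⊔ Q` all whose values lie in `P`. -/
theorem exists_of_isL {P Q E : SSet.{0}} (f : E ⟶ SumS P Q)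
    (h : ∀ (k : SimplexCategoryᵒᵖ) (e : E.obj k), isL (f.app k e) = true) :
    ∃ g : E ⟶ P, ∀ (k : SimplexCategoryᵒᵖ) (e : E.obj k), f.app k e = Sum.inl (g.app k e) := by
  have h1 : ∀ (k : SimplexCategoryᵒᵖ) (e : E.obj k), ∃ p : P.obj k, f.app k e = Sum.inl p := by
    intro k e
    rcases h2 : (show P.obj k ⊕ Q.obj k from f.app k e) with p | q
    · exact ⟨p, h2⟩
    · have h3 := h k e
      rw [show f.app k e = Sum.inr q from h2] at h3
      exact Bool.noConfusion (h3 : false = true)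
  choose g hg using h1
  refine ⟨{
    app := fun k => ↾fun e => g k e
    naturality := ?_ }, hg⟩
  intro k l θ
  apply ConcreteCategory.hom_ext
  intro e
  have e1 : f.app l (E.map θ e) = (SumS P Q).map θ (f.app k e) := NatTrans.naturality_apply f θ e
  rw [hg, hg] at e1
  exact Sum.inl_injective e1

theorem exists_of_isR {P Q E : SSet.{0}} (f : E ⟶ SumS P Q)
    (h : ∀ (k : SimplexCategoryᵒᵖ) (e : E.obj k), isL (f.app k e) = false) :
    ∃ g : E ⟶ Q, ∀ (k : SimplexCategoryᵒᵖ) (e : E.obj k), f.app k e = Sum.inr (g.app k e) := by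
  have h1 : ∀ (k : SimplexCategoryᵒᵖ) (e : E.obj k), ∃ p : Q.obj k, f.app k e = Sum.inr p := by
    intro k e
    rcases h2 : (show P.obj k ⊕ Q.obj k from f.app k e) with p | q
    · have h3 := h k e
      rw [show f.app k e = Sum.inl p from h2] at h3
      exact Bool.noConfusion (h3 : true = false)
    · exact ⟨q, h2⟩
  choose g hg using h1
  refine ⟨{
    app := fun k => ↾fun e => g k e
    naturality := ?_ }, hg⟩
  intro k l θ
  apply ConcreteCategory.hom_ext
  intro e
  have e1 : f.app l (E.map θ e) = (SumS P Q).map θ (f.app k e) := NatTrans.naturality_apply f θ e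
  rw [hg, hg] at e1
  exact Sum.inr_injective e1

theorem force_or {n : ℕ} {φ ψ : Fml n} {E : SSet.{0}} (hE : Conn E) {u : E ⟶ Pow X n} :
    Force μ (Fml.or φ ψ) u ↔ Force μ φ u ∨ Force μ ψ u := by
  constructor
  · rintro ⟨f, hf⟩
    change E ⟶ SumS (tau μ φ).left (tau μ ψ).left at f
    obtain ⟨⟨e₀⟩, hc⟩ := hE
    have hb := hc Bool (fun k e => isL (f.app k e)) (fun k l θ z =>
      (congrArg isL (NatTrans.naturality_apply f θ z)).trans (isL_map θ _))
    rcases h : isL (f.app _ e₀) with _ | _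
    · obtain ⟨g, hg⟩ := exists_of_isR f (fun k e => (hb _ _ e e₀).trans h)
      refine Or.inr ⟨g, ?_⟩
      ext k e
      have e1 := ConcreteCategory.congr_hom (NatTrans.congr_app hf k) e
      refine Eq.trans ?_ e1
      exact congrArg ((sumMap (tau μ φ).hom (tau μ ψ).hom).app k) (hg k e).symm
    · obtain ⟨g, hg⟩ := exists_of_isL f (fun k e => (hb _ _ e e₀).trans h)
      refine Or.inl ⟨g, ?_⟩
      ext k e
      have e1 := ConcreteCategory.congr_hom (NatTrans.congr_app hf k) e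
      refine Eq.trans ?_ e1
      exact congrArg ((sumMap (tau μ φ).hom (tau μ ψ).hom).app k) (hg k e).symm
  · rintro (⟨f, rfl⟩ | ⟨f, rfl⟩)
    · exact ⟨f ≫ { app := fun k => ↾fun x => Sum.inl x }, rfl⟩
    · exact ⟨f ≫ { app := fun k => ↾fun x => Sum.inr x }, rfl⟩

theorem force_imp' {n : ℕ} {φ ψ : Fml n} {E : SSet.{0}} {u : E ⟶ Pow X n} :
    Force μ (Fml.imp φ ψ) u ↔
      ∀ (E' : SSet.{0}) (_ : Conn E') (g : E' ⟶ E), Force μ φ (g ≫ u) → Force μ ψ (g ≫ u) := by
  rw [force_imp]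
  refine ⟨fun h E' _ g => h E' g, fun h E' g hf => ?_⟩
  refine force_of_comp fun c => ?_
  exact h (Comp E' c) (conn_comp E' c) (Comp.incl E' c ≫ g) (hf.comp (Comp.incl E' c))

theorem force_all' {n : ℕ} {φ : Fml (n + 1)} {E : SSet.{0}} {u : E ⟶ Pow X n} :
    Force μ (Fml.all φ) u ↔
      ∀ (E' : SSet.{0}) (_ : Conn E') (g : E' ⟶ E) (v : E' ⟶ X), Force μ φ (snoc (g ≫ u) v) := by
  rw [force_all]
  refine ⟨fun h E' _ g v => h E' g v, fun h E' g v => ?_⟩
  refine force_of_comp fun c => ?_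
  exact h (Comp E' c) (conn_comp E' c) (Comp.incl E' c ≫ g) (Comp.incl E' c ≫ v)

end

end Pool.Agent.H93.Hofo
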