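import Pool.Agent.H93.Hofo.Sem

/-!
# A Los theorem for the structures `Sh × V × BN`
-/

namespace Pool.Agent.H93.Hofo

open Filter

variable {Sh N : Type} [Group N] (S : SD Sh N)

theorem fsnoc_apply {α β : Type*} (F : α → β) {n : ℕ} (v : Fin n → α) (w : α) :
    (fun i => F (fsnoc v w i)) = fsnoc (fun i => F (v i)) (F w) := by
  funext i
  refine Fin.lastCases ?_ (fun j => ?_) i
  · rw [fsnoc_last, fsnoc_last]
  · rw [fsnoc_castSucc, fsnoc_castSucc]

section

variable {V V' : Type} (𝒰 : Ultrafilter ℕ) (op : ℕ → Sh → Sh → V → V → V)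
  (op' : Sh → Sh → V' → V' → V') (π : (ℕ → V) → V')
  (hop : ∀ a b v w, op' a b (π v) (π w) = π (fun s => op s a b (v s) (w s)))

include hop in
theorem tv_los {n : ℕ} (σ : Fin n → Sh) (v : Fin n → ℕ → V) (t : Tm n) :
    tv S op' σ (fun i => π (v i)) t = π (fun s => tv S (op s) σ (fun i => v i s) t) := by
  induction t with
  | var i => rfl
  | m s t hs ht =>
    change op' _ _ (tv S op' σ (fun i => π (v i)) s) (tv S op' σ (fun i => π (v i)) t) = _
    rw [hs, ht, hop]
    rfl

theorem val_range [Finite Sh] (hπ : Function.Surjective π) {n : ℕ} (φ : Fml (n + 1))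
    (h : ∀ (σ : Fin (n + 1) → Sh) (v : Fin (n + 1) → ℕ → V), ∀ᶠ s in (𝒰 : Filter ℕ),
      val S (op s) φ σ (fun i => v i s) = val S op' φ σ (fun i => π (v i)))
    (σ : Fin n → Sh) (v : Fin n → ℕ → V) : ∀ᶠ s in (𝒰 : Filter ℕ),
      (fun a => Set.range fun w => val S (op s) φ (fsnoc σ a) (fsnoc (fun i => v i s) w)) =
      (fun a => Set.range fun w => val S op' φ (fsnoc σ a) (fsnoc (fun i => π (v i)) w)) := by
  have hfin : Finite (Ty Sh φ) := finite_Ty φ
  have h1 : ∀ a : Sh, ∀ q : Ty Sh φ, ∀ᶠ s in (𝒰 : Filter ℕ),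
      (q ∈ (Set.range fun w => val S (op s) φ (fsnoc σ a) (fsnoc (fun i => v i s) w)) ↔
        q ∈ (Set.range fun w => val S op' φ (fsnoc σ a) (fsnoc (fun i => π (v i)) w))) := by
    intro a q
    by_cases hq : q ∈ (Set.range fun w => val S op' φ (fsnoc σ a) (fsnoc (fun i => π (v i)) w))
    · obtain ⟨w', hw'⟩ := hq
      obtain ⟨w, rfl⟩ := hπ w'
      filter_upwards [h (fsnoc σ a) (fsnoc v w)] with s hs
      refine iff_of_true ⟨w s, ?_⟩ ⟨π w, hw'⟩
      simp only at hw' ⊢
      rw [← hw', ← fsnoc_apply (fun v => π v), ← hs, ← fsnoc_apply (fun v : ℕ → V => v s)]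
    · have h0 : ∀ᶠ s in (𝒰 : Filter ℕ),
          (∃ w, val S (op s) φ (fsnoc σ a) (fsnoc (fun i => v i s) w) = q) ∨
            ¬ (∃ w, val S (op s) φ (fsnoc σ a) (fsnoc (fun i => v i s) w) = q) :=
        Eventually.of_forall fun s => em _
      rcases Ultrafilter.eventually_or.mp h0 with h2 | h2
      · exfalso
        obtain ⟨w, hw⟩ := Eventually.choice h2
        apply hq
        refine ⟨π w, ?_⟩
        obtain ⟨s, hs1, hs2⟩ := (hw.and (h (fsnoc σ a) (fsnoc v w))).exists
        simp only at hs1 ⊢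
        rw [← fsnoc_apply (fun v => π v), ← hs2, ← hs1, ← fsnoc_apply (fun v : ℕ → V => v s)]
      · filter_upwards [h2] with s hs
        exact iff_of_false hs hq
  have h2 := eventually_all.mpr fun a => eventually_all.mpr (h1 a)
  filter_upwards [h2] with s hs
  funext a
  exact Set.ext (hs a)

/-- The Los theorem. -/
theorem los [Finite Sh] (hπ : Function.Surjective π)
    (hπ' : ∀ v w, π v = π w ↔ ∀ᶠ s in (𝒰 : Filter ℕ), v s = w s)
    (hop : ∀ a b v w, op' a b (π v) (π w) = π (fun s => op s a b (v s) (w s)))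
    {n : ℕ} (φ : Fml n) (σ : Fin n → Sh) (v : Fin n → ℕ → V) : ∀ᶠ s in (𝒰 : Filter ℕ),
      val S (op s) φ σ (fun i => v i s) = val S op' φ σ (fun i => π (v i)) := by
  induction φ with
  | top => exact Eventually.of_forall fun s => rfl
  | bot => exact Eventually.of_forall fun s => rfl
  | eq s t =>
    have h1 : val S op' (Fml.eq s t) σ (fun i => π (v i)) ↔ ∀ᶠ k in (𝒰 : Filter ℕ),
        tv S (op k) σ (fun i => v i k) s = tv S (op k) σ (fun i => v i k) t := by
      change (tv S op' σ (fun i => π (v i)) s = tv S op' σ (fun i => π (v i)) t) ↔ _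
      rw [tv_los S op op' π hop, tv_los S op op' π hop, hπ']
    rcases Classical.em (val S op' (Fml.eq s t) σ (fun i => π (v i))) with h | h
    · filter_upwards [h1.mp h] with k hk
      exact propext (iff_of_true hk h)
    · have h2 := Ultrafilter.eventually_not.mpr (fun h3 => h (h1.mpr h3))
      filter_upwards [h2] with k hk
      exact propext (iff_of_false hk h)
  | and φ ψ h1 h2 =>
    filter_upwards [h1 σ v, h2 σ v] with s hs1 hs2
    exact Prod.ext hs1 hs2
  | or φ ψ h1 h2 =>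
    filter_upwards [h1 σ v, h2 σ v] with s hs1 hs2
    exact Prod.ext hs1 hs2
  | imp φ ψ h1 h2 =>
    filter_upwards [h1 σ v, h2 σ v] with s hs1 hs2
    exact Prod.ext hs1 hs2
  | all φ h => exact val_range S 𝒰 op op' π hπ φ h σ v
  | ex φ h => exact val_range S 𝒰 op op' π hπ φ h σ v

/-- Sentences true in the ultraproduct are true in almost all factors. -/
theorem sat_los [Finite Sh] (hπ : Function.Surjective π)
    (hπ' : ∀ v w, π v = π w ↔ ∀ᶠ s in (𝒰 : Filter ℕ), v s = w s)
    (hop : ∀ a b v w, op' a b (π v) (π w) = π (fun s => op s a b (v s) (w s)))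
    (φ : Fml 0) (hφ : Sat (muL (S.toLD op')) φ) :
    ∀ᶠ s in (𝒰 : Filter ℕ), Sat (muL (S.toLD (op s))) φ := by
  filter_upwards [los S 𝒰 op op' π hπ hπ' hop φ Fin.elim0 (fun i => Fin.elim0 i)] with s hs
  rw [sat_iff] at hφ ⊢
  have e1 : (fun i : Fin 0 => (Fin.elim0 i : ℕ → V) s) = Fin.elim0 := funext fun i => Fin.elim0 i
  have e2 : (fun i : Fin 0 => π (Fin.elim0 i)) = Fin.elim0 := funext fun i => Fin.elim0 i
  rw [e1, e2] at hs
  rw [hs]
  exact hφ

end

end Pool.Agent.H93.Hofo
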