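import Pool.Agent.H93.Hofo.Lift

/-!
# The structures `L × BN`

`BN` is the classifying space of a group `N`, in the model in which a `k`-simplex is a family
`σ i j : N` with `σ i j * σ j l = σ i l`. For a set `L` of labels we consider the Kan complex
`L × BN`, with an operation of the form `((c, σ), (c', σ')) ↦ (c c', λ(c, c') σ)`.
-/

open CategoryTheory MonoidalCategory CartesianMonoidalCategory Opposite Simplicial

namespace Pool.Agent.H93.Hofo

noncomputable section

/-- The simplices of `BN`. -/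
def Coc (N : Type) [Group N] (k : SimplexCategoryᵒᵖ) : Type :=
  {σ : Fin (k.unop.len + 1) → Fin (k.unop.len + 1) → N // ∀ i j l, σ i j * σ j l = σ i l}

/-- The classifying space `BN`. -/
def BN (N : Type) [Group N] : SSet.{0} where
  obj k := Coc N k
  map θ := ↾fun σ => ⟨fun i j => σ.1 (θ.unop.toOrderHom i) (θ.unop.toOrderHom j),
    fun _ _ _ => σ.2 _ _ _⟩

theorem BN_ext {N : Type} [Group N] {k : SimplexCategoryᵒᵖ} {σ τ : (BN N).obj k}
    (h : ∀ i j, σ.1 i j = τ.1 i j) : σ = τ :=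
  Subtype.ext (funext fun i => funext fun j => h i j)

/-- The map `BN → BM` induced by a homomorphism. -/
def bmap {N M : Type} [Group N] [Group M] (f : N →* M) : BN N ⟶ BN M where
  app k := ↾fun σ => ⟨fun i j => f (σ.1 i j), fun i j l => by rw [← map_mul, σ.2]⟩

/-- The simplicial set `L × BN`. -/
def XL (L N : Type) [Group N] : SSet.{0} where
  obj k := L × (BN N).obj k
  map θ := ↾fun p => (p.1, (BN N).map θ p.2)

/-- Label data. -/
structure LD (L N : Type) [Group N] where
  mul : L → L → L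
  lam : L → L → (N →* N)

/-- The operation on `L × BN`. -/
def muL {L N : Type} [Group N] (D : LD L N) : XL L N ⊗ XL L N ⟶ XL L N where
  app k := ↾fun p => (D.mul p.1.1 p.2.1, (bmap (D.lam p.1.1 p.2.1)).app k p.1.2)

/-- The map `E → L × BN` with constant label. -/
def mkX {L N : Type} [Group N] {E : SSet.{0}} (l : L) (f : E ⟶ BN N) : E ⟶ XL L N where
  app k := ↾fun e => (l, f.app k e)
  naturality k m θ := by
    apply ConcreteCategory.hom_ext
    intro e
    exact Prod.ext rfl (by exact NatTrans.naturality_apply f θ e)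

/-- The map `L × BN → BN`. -/
def toBN {L N : Type} [Group N] : XL L N ⟶ BN N where
  app k := ↾fun p => p.2

theorem exists_mkX {L N : Type} [Group N] {E : SSet.{0}} (hE : Conn E) (u : E ⟶ XL L N) :
    ∃ (l : L) (f : E ⟶ BN N), u = mkX l f := by
  obtain ⟨⟨e₀⟩, hc⟩ := hE
  refine ⟨(u.app _ e₀).1, u ≫ toBN, ?_⟩
  ext k e
  refine Prod.ext (hc L (fun k e => (u.app k e).1) (fun k l θ z => ?_) k _ e e₀) rfl
  exact congrArg Prod.fst (NatTrans.naturality_apply u θ z)

theorem cocycle_horn {N : Type} [Group N] (n : ℕ) (i : Fin (n + 3))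
    (σ : ∀ j : Fin (n + 3), j ≠ i → Fin (n + 2) → Fin (n + 2) → N)
    (hσ : ∀ j hj x y z, σ j hj x y * σ j hj y z = σ j hj x z)
    (hc : ∀ j k hj hk x y x' y', j.succAbove x = k.succAbove x' → j.succAbove y = k.succAbove y' →
      σ j hj x y = σ k hk x' y') :
    ∃ τ : Fin (n + 3) → Fin (n + 3) → N, (∀ x y z, τ x y * τ y z = τ x z) ∧
      ∀ j hj x y, τ (j.succAbove x) (j.succAbove y) = σ j hj x y := by
  have h1 : ∀ a : Fin (n + 3), ∃ v : N, ∀ j hj x y, j.succAbove x = i → j.succAbove y = a →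
      v = σ j hj x y := by
    intro a
    obtain ⟨j, hj⟩ : ∃ j : Fin (n + 3), j ∉ ({i, a} : Finset (Fin (n + 3))) := by
      by_contra hcon
      push Not at hcon
      have h2 : (Finset.univ : Finset (Fin (n + 3))) ⊆ {i, a} := fun x _ => hcon x
      have h3 := Finset.card_le_card h2
      have h4 := Finset.card_le_two (a := i) (b := a)
      rw [Finset.card_univ, Fintype.card_fin] at h3
      omega
    rw [Finset.mem_insert, Finset.mem_singleton, not_or] at hj
    obtain ⟨x, hx⟩ := Fin.exists_succAbove_eq (Ne.symm hj.1)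
    obtain ⟨y, hy⟩ := Fin.exists_succAbove_eq (Ne.symm hj.2)
    refine ⟨σ j hj.1 x y, fun k hk x' y' hx' hy' => ?_⟩
    exact hc j k hj.1 hk x y x' y' (hx.trans hx'.symm) (hy.trans hy'.symm)
  choose p hp using h1
  refine ⟨fun a b => (p a)⁻¹ * p b, fun x y z => by group, fun j hj x y => ?_⟩
  obtain ⟨x₀, hx₀⟩ := Fin.exists_succAbove_eq (Ne.symm hj)
  simp only
  rw [hp _ j hj x₀ x hx₀ rfl, hp _ j hj x₀ y hx₀ rfl, inv_mul_eq_iff_eq_mul, hσ]

theorem coc_self {N : Type} [Group N] {k : SimplexCategoryᵒᵖ} (σ : (BN N).obj k)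
    (x : Fin (k.unop.len + 1)) : σ.1 x x = 1 :=
  mul_eq_left.mp (σ.2 x x x)

theorem exists_common_face {n : ℕ} {j k : Fin (n + 3)} (hjk : j < k) {x x' : Fin (n + 2)}
    (h : j.succAbove x = k.succAbove x') : ∃ z : Fin (n + 1),
      (k.pred (Fin.ne_zero_of_lt hjk)).succAbove z = x ∧
      (j.castPred (Fin.ne_last_of_lt hjk)).succAbove z = x' := by
  have hx : x ≠ k.pred (Fin.ne_zero_of_lt hjk) := by
    rintro rfl
    have h1 : j.succAbove (k.pred (Fin.ne_zero_of_lt hjk)) = k := by
      rw [Fin.ext_iff]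
      rw [Fin.lt_def] at hjk
      simp only [Fin.succAbove, Fin.lt_def]
      split_ifs <;> simp at * <;> omega
    rw [h1] at h
    exact Fin.ne_succAbove k x' h
  obtain ⟨z, hz⟩ := Fin.exists_succAbove_eq hx
  refine ⟨z, hz, ?_⟩
  subst hz
  rw [Fin.ext_iff] at h ⊢
  rw [Fin.lt_def] at hjk
  simp only [Fin.succAbove, Fin.lt_def] at h ⊢
  split_ifs at h ⊢ <;> simp at * <;> omega

theorem kan_XL (L N : Type) [Group N] : SSet.KanComplex (XL L N) := by
  rw [SSet.KanComplex.iff]
  intro n i f hf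
  obtain _ | n := n
  · obtain ⟨j₀, hj₀⟩ : ∃ j : Fin 2, j ≠ i := exists_ne i
    refine ⟨smap (B := XL L N) (k := op ⦋1⦌)
      ((SSet.yonedaEquiv (f j₀ hj₀)).1, ⟨fun _ _ => 1, fun _ _ _ => one_mul 1⟩), fun j hj => ?_⟩
    obtain rfl : j = j₀ := by
      have := j.isLt
      have := j₀.isLt
      have := i.isLt
      rw [Ne, Fin.ext_iff] at hj hj₀
      rw [Fin.ext_iff]
      omega
    apply SSet.yonedaEquiv.injective
    rw [SSet.stdSimplex.yonedaEquiv_δ_comp]
    refine Prod.ext rfl (BN_ext fun x y => ?_)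
    have h1 := coc_self (SSet.yonedaEquiv (f j hj)).2 x
    obtain rfl : x = y := Subsingleton.elim (α := Fin 1) x y
    exact h1.symm
  · set s : ∀ j : Fin (n + 3), j ≠ i → (XL L N).obj (op ⦋n + 1⦌) :=
      fun j hj => SSet.yonedaEquiv (f j hj) with hs
    have hcomp : ∀ (j k : Fin (n + 3)) (hj : j ≠ i) (hk : k ≠ i) (hjk : j < k),
        (XL L N).δ (k.pred (Fin.ne_zero_of_lt hjk)) (s j hj) =
          (XL L N).δ (j.castPred (Fin.ne_last_of_lt hjk)) (s k hk) := by
      intro j k hj hk hjk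
      have h1 := congrArg SSet.yonedaEquiv (hf j k hj hk hjk)
      rw [SSet.stdSimplex.yonedaEquiv_δ_comp, SSet.stdSimplex.yonedaEquiv_δ_comp] at h1
      exact h1
    have hlab : ∀ (j k : Fin (n + 3)) (hj : j ≠ i) (hk : k ≠ i), (s j hj).1 = (s k hk).1 := by
      intro j k hj hk
      rcases lt_trichotomy j k with h | h | h
      · exact congrArg (fun z : (XL L N).obj (op ⦋n⦌) => z.1) (hcomp j k hj hk h)
      · subst h
        rfl
      · exact (congrArg (fun z : (XL L N).obj (op ⦋n⦌) => z.1) (hcomp k j hk hj h)).symm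
    have hlt : ∀ (j k : Fin (n + 3)) (hj : j ≠ i) (hk : k ≠ i) (hjk : j < k) x y x' y',
        j.succAbove x = k.succAbove x' → j.succAbove y = k.succAbove y' →
        (s j hj).2.1 x y = (s k hk).2.1 x' y' := by
      intro j k hj hk hjk x y x' y' hx hy
      obtain ⟨z, hz, hz'⟩ := exists_common_face hjk hx
      obtain ⟨w, hw, hw'⟩ := exists_common_face hjk hy
      have h1 := congrArg (fun z : (XL L N).obj (op ⦋n⦌) => z.2.1) (hcomp j k hj hk hjk)
      have h2 := congrFun (congrFun h1 z) w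
      rw [← hz, ← hw, ← hz', ← hw']
      exact h2
    obtain ⟨τ, hτ, hτ'⟩ := cocycle_horn n i (fun j hj => (s j hj).2.1)
      (fun j hj => (s j hj).2.2) (by
        intro j k hj hk x y x' y' hx hy
        rcases lt_trichotomy j k with h | h | h
        · exact hlt j k hj hk h x y x' y' hx hy
        · subst h
          rw [Fin.succAbove_right_injective hx, Fin.succAbove_right_injective hy]
        · exact (hlt k j hk hj h x' y' x y hx.symm hy.symm).symm)
    obtain ⟨j₀, hj₀⟩ : ∃ j : Fin (n + 3), j ≠ i := exists_ne i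
    refine ⟨smap (B := XL L N) (k := op ⦋n + 2⦌) ((s j₀ hj₀).1, ⟨τ, hτ⟩), fun j hj => ?_⟩
    apply SSet.yonedaEquiv.injective
    rw [SSet.stdSimplex.yonedaEquiv_δ_comp]
    refine Prod.ext (hlab j₀ j hj₀ hj) (BN_ext fun x y => ?_)
    exact hτ' j hj x y

end

end Pool.Agent.H93.Hofo
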