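import Pool.Agent.H93.Hofo.Gauge

/-!
# The `A_4` condition for `L × BN`: necessity
-/

open CategoryTheory MonoidalCategory CartesianMonoidalCategory Opposite Simplicial

namespace Pool.Agent.H93.Hofo

noncomputable section

variable {L N : Type} [Group N]

/-- The value of an edge of `L × BN`. -/
def ev (x : (XL L N).obj (op ⦋1⦌)) : N := x.2.1 (0 : Fin 2) (1 : Fin 2)

/-- A degenerate simplex on a vertex. -/
def deg {Y : SSet.{0}} (k : SimplexCategory) (y : Y.obj (op ⦋0⦌)) : Y.obj (op k) :=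
  Y.map (SimplexCategory.const k ⦋0⦌ 0).op y

theorem map_deg {Y : SSet.{0}} {k l : SimplexCategory} (θ : l ⟶ k) (y : Y.obj (op ⦋0⦌)) :
    Y.map θ.op (deg k y) = deg l y := by
  unfold deg
  rw [← Functor.map_comp_apply, ← op_comp]
  rfl

theorem app_deg {Y Z : SSet.{0}} (f : Y ⟶ Z) {k : SimplexCategory} (y : Y.obj (op ⦋0⦌)) :
    f.app _ (deg k y) = deg k (f.app _ y) :=
  NatTrans.naturality_apply f _ y

theorem ev_deg (x : (XL L N).obj (op ⦋0⦌)) : ev (deg ⦋1⦌ x) = 1 :=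
  coc_self x.2 0

theorem ev_tri {Z : SSet.{0}} (H : Z ⟶ XL L N) (A : Z.obj (op ⦋2⦌)) :
    ev (H.app _ (Z.map (SimplexCategory.δ 2).op A)) *
      ev (H.app _ (Z.map (SimplexCategory.δ 0).op A)) =
      ev (H.app _ (Z.map (SimplexCategory.δ 1).op A)) := by
  have h0 := NatTrans.naturality_apply H (SimplexCategory.δ (n := 1) 0).op A
  have h1 := NatTrans.naturality_apply H (SimplexCategory.δ (n := 1) 1).op A
  have h2 := NatTrans.naturality_apply H (SimplexCategory.δ (n := 1) 2).op A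
  rw [h0, h1, h2]
  exact (H.app _ A).2.2 (0 : Fin 3) (1 : Fin 3) (2 : Fin 3)

/-- The gauge of a homotopy at a vertex. -/
def gau {Y : SSet.{0}} (H : Y ⊗ Δ[1] ⟶ XL L N) (y : Y.obj (op ⦋0⦌)) : N :=
  ev (H.app (op ⦋1⦌) (pr (deg ⦋1⦌ y) (idS (op ⦋1⦌))))

theorem gau_composite {Y : SSet.{0}} {H H' K : Y ⊗ Δ[1] ⟶ XL L N} (h : IsComposite H H' K)
    (y : Y.obj (op ⦋0⦌)) : gau K y = gau H y * gau H' y := by
  obtain ⟨T, rfl, rfl, rfl⟩ := h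
  have h1 := ev_tri T (pr (B := Δ[2]) (deg ⦋2⦌ y) (idS (op ⦋2⦌)))
  have h2 : ∀ i : Fin 3, (Y ⊗ Δ[2]).map (SimplexCategory.δ i).op
      (pr (B := Δ[2]) (deg ⦋2⦌ y) (idS (op ⦋2⦌))) =
      (Y ◁ SSet.stdSimplex.δ i).app _ (pr (B := Δ[1]) (deg ⦋1⦌ y) (idS (op ⦋1⦌))) := by
    intro i
    refine Prod.ext (map_deg _ _) ?_
    apply SSet.stdSimplex.objEquiv.injective
    change SimplexCategory.δ i ≫ 𝟙 _ = 𝟙 _ ≫ SimplexCategory.δ i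
    simp
  rw [h2, h2, h2] at h1
  exact h1.symm

/-- The `2`-simplex of `Δ[1]` with vertices `0, 0, 1` (`i = 0`) or `0, 1, 1` (`i = 1`). -/
def dg (i : Fin 2) : (Δ[1] : SSet.{0}).obj (op ⦋2⦌) :=
  SSet.stdSimplex.objEquiv.symm (SimplexCategory.σ i)

/-- The constant edge of `Δ[1]` at `i`. -/
def ct (i : Fin 2) : (Δ[1] : SSet.{0}).obj (op ⦋1⦌) :=
  SSet.stdSimplex.objEquiv.symm (SimplexCategory.const _ _ i)

theorem dg_faces : (Δ[1] : SSet.{0}).map (SimplexCategory.δ 2).op (dg 0) = ct 0 ∧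
    (Δ[1] : SSet.{0}).map (SimplexCategory.δ 0).op (dg 0) = idS (op ⦋1⦌) ∧
    (Δ[1] : SSet.{0}).map (SimplexCategory.δ 1).op (dg 0) = idS (op ⦋1⦌) ∧
    (Δ[1] : SSet.{0}).map (SimplexCategory.δ 2).op (dg 1) = idS (op ⦋1⦌) ∧
    (Δ[1] : SSet.{0}).map (SimplexCategory.δ 0).op (dg 1) = ct 1 ∧
    (Δ[1] : SSet.{0}).map (SimplexCategory.δ 1).op (dg 1) = idS (op ⦋1⦌) := by
  refine ⟨?_, ?_, ?_, ?_, ?_, ?_⟩ <;>
    exact congrArg SSet.stdSimplex.objEquiv.symm (by decide)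

theorem iota0_app {Y : SSet.{0}} (e : Y.obj (op ⦋1⦌)) :
    (SSet.ι₀ (X := Y)).app (op ⦋1⦌) e = pr (B := Δ[1]) e (ct 0) := by
  refine Prod.ext rfl ?_
  change (Δ[1] : SSet.{0}).map (SimplexCategory.const ⦋1⦌ ⦋0⦌ 0).op
    (SSet.stdSimplex.obj₀Equiv.symm 0) = ct 0
  decide

theorem iota1_app {Y : SSet.{0}} (e : Y.obj (op ⦋1⦌)) :
    (SSet.ι₁ (X := Y)).app (op ⦋1⦌) e = pr (B := Δ[1]) e (ct 1) := by
  refine Prod.ext rfl ?_
  change (Δ[1] : SSet.{0}).map (SimplexCategory.const ⦋1⦌ ⦋0⦌ 0).op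
    (SSet.stdSimplex.obj₀Equiv.symm 1) = ct 1
  decide

theorem map_map_id {Y : SSet.{0}} (e : Y.obj (op ⦋1⦌)) (f : ⦋1⦌ ⟶ ⦋2⦌) (g : ⦋2⦌ ⟶ ⦋1⦌)
    (h : f ≫ g = 𝟙 _) : Y.map f.op (Y.map g.op e) = e := by
  rw [← Functor.map_comp_apply, ← op_comp, h, op_id, Functor.map_id_apply]

theorem map_map_const {Y : SSet.{0}} (e : Y.obj (op ⦋1⦌)) (f : ⦋1⦌ ⟶ ⦋2⦌) (g : ⦋2⦌ ⟶ ⦋1⦌)
    (i : Fin 2) (h : f ≫ g = SimplexCategory.const _ _ i) :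
    Y.map f.op (Y.map g.op e) = deg ⦋1⦌ (vtx e i) := by
  rw [← Functor.map_comp_apply, ← op_comp, h]
  unfold deg vtx
  rw [← Functor.map_comp_apply, ← op_comp]
  rfl

theorem gau_naturality {Y : SSet.{0}} (H : Y ⊗ Δ[1] ⟶ XL L N) (e : Y.obj (op ⦋1⦌)) :
    ev ((SSet.ι₀ ≫ H).app _ e) * gau H (vtx e 1) = gau H (vtx e 0) * ev ((SSet.ι₁ ≫ H).app _ e) := by
  have hA := ev_tri H (pr (B := Δ[1]) (Y.map (SimplexCategory.σ 1).op e) (dg 0))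
  have hB := ev_tri H (pr (B := Δ[1]) (Y.map (SimplexCategory.σ 0).op e) (dg 1))
  obtain ⟨d1, d2, d3, d4, d5, d6⟩ := dg_faces
  have a1 : (Y ⊗ Δ[1]).map (SimplexCategory.δ 2).op
      (pr (B := Δ[1]) (Y.map (SimplexCategory.σ 1).op e) (dg 0)) = SSet.ι₀.app _ e :=
    (Prod.ext (map_map_id e _ _ (by decide)) d1 : _ = pr (B := Δ[1]) e (ct 0)).trans
      (iota0_app e).symm
  have a2 : (Y ⊗ Δ[1]).map (SimplexCategory.δ 0).op
      (pr (B := Δ[1]) (Y.map (SimplexCategory.σ 1).op e) (dg 0)) =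
      pr (B := Δ[1]) (deg ⦋1⦌ (vtx e 1)) (idS (op ⦋1⦌)) :=
    Prod.ext (map_map_const e _ _ 1 (by decide)) d2
  have a3 : (Y ⊗ Δ[1]).map (SimplexCategory.δ 1).op
      (pr (B := Δ[1]) (Y.map (SimplexCategory.σ 1).op e) (dg 0)) =
      pr (B := Δ[1]) e (idS (op ⦋1⦌)) :=
    Prod.ext (map_map_id e _ _ (by decide)) d3
  have b1 : (Y ⊗ Δ[1]).map (SimplexCategory.δ 2).op
      (pr (B := Δ[1]) (Y.map (SimplexCategory.σ 0).op e) (dg 1)) =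
      pr (B := Δ[1]) (deg ⦋1⦌ (vtx e 0)) (idS (op ⦋1⦌)) :=
    Prod.ext (map_map_const e _ _ 0 (by decide)) d4
  have b2 : (Y ⊗ Δ[1]).map (SimplexCategory.δ 0).op
      (pr (B := Δ[1]) (Y.map (SimplexCategory.σ 0).op e) (dg 1)) = SSet.ι₁.app _ e :=
    (Prod.ext (map_map_id e _ _ (by decide)) d5 : _ = pr (B := Δ[1]) e (ct 1)).trans
      (iota1_app e).symm
  have b3 : (Y ⊗ Δ[1]).map (SimplexCategory.δ 1).op
      (pr (B := Δ[1]) (Y.map (SimplexCategory.σ 0).op e) (dg 1)) =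
      pr (B := Δ[1]) e (idS (op ⦋1⦌)) :=
    Prod.ext (map_map_id e _ _ (by decide)) d6
  rw [a1, a2, a3] at hA
  rw [b1, b2, b3] at hB
  exact hA.trans hB.symm

theorem map_pr {A B : SSet.{0}} {k l : SimplexCategoryᵒᵖ} (θ : k ⟶ l) (a : A.obj k)
    (b : B.obj k) : (A ⊗ B).map θ (pr a b) = pr (A.map θ a) (B.map θ b) := rfl

theorem whisker_pr {A A' B : SSet.{0}} {k : SimplexCategoryᵒᵖ} (f : A ⟶ A') (a : A.obj k)
    (b : B.obj k) : (f ▷ B).app k (pr a b) = pr (f.app k a) b := rfl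

theorem sq_faces {Y : SSet.{0}} (y : Y.obj (op ⦋0⦌)) (δ : ⦋1⦌ ⟶ ⦋2⦌) (i j : Fin 2)
    (s t : (Δ[1] : SSet.{0}).obj (op ⦋1⦌)) (hs : (Δ[1] : SSet.{0}).map δ.op (dg i) = s)
    (ht : (Δ[1] : SSet.{0}).map δ.op (dg j) = t) :
    ((Y ⊗ Δ[1]) ⊗ Δ[1]).map δ.op
      (pr (A := Y ⊗ Δ[1]) (B := Δ[1]) (pr (B := Δ[1]) (deg ⦋2⦌ y) (dg i)) (dg j)) =
      pr (A := Y ⊗ Δ[1]) (B := Δ[1]) (pr (B := Δ[1]) (deg ⦋1⦌ y) s) t := by
  rw [map_pr, map_pr, map_deg, hs, ht]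

theorem app_const {Y : SSet.{0}} (T : (Y ⊗ Δ[1]) ⊗ Δ[1] ⟶ XL L N) (y : Y.obj (op ⦋0⦌))
    (i : Fin 2) (ι : Y ⟶ Y ⊗ Δ[1]) (K : Y ⊗ Δ[1] ⟶ XL L N)
    (hι : ι.app _ (deg ⦋1⦌ y) = pr (B := Δ[1]) (deg ⦋1⦌ y) (ct i))
    (h : (ι ▷ Δ[1]) ≫ T = fst Y Δ[1] ≫ ι ≫ K) :
    ev (T.app _ (pr (A := Y ⊗ Δ[1]) (B := Δ[1]) (pr (B := Δ[1]) (deg ⦋1⦌ y) (ct i))
      (idS (op ⦋1⦌)))) = 1 := by
  have h1 := ConcreteCategory.congr_hom (NatTrans.congr_app h (op ⦋1⦌))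
    (pr (B := Δ[1]) (deg ⦋1⦌ y) (idS (op ⦋1⦌)))
  have h2 : ((ι ▷ Δ[1]) ≫ T).app (op ⦋1⦌) (pr (B := Δ[1]) (deg ⦋1⦌ y) (idS (op ⦋1⦌))) =
      T.app _ ((ι ▷ Δ[1]).app _ (pr (B := Δ[1]) (deg ⦋1⦌ y) (idS (op ⦋1⦌)))) := rfl
  have h3 : (fst Y Δ[1] ≫ ι ≫ K).app (op ⦋1⦌) (pr (B := Δ[1]) (deg ⦋1⦌ y) (idS (op ⦋1⦌))) =
      (ι ≫ K).app _ (deg ⦋1⦌ y) := rfl
  rw [h2, h3, whisker_pr, hι, app_deg] at h1
  rw [h1, ev_deg]

theorem gau_rel {Y : SSet.{0}} {K K' : Y ⊗ Δ[1] ⟶ XL L N} (h : HtpyRelEnds K K')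
    (y : Y.obj (op ⦋0⦌)) : gau K y = gau K' y := by
  obtain ⟨T, rfl, rfl, h0, h1⟩ := h
  obtain ⟨d1, d2, d3, d4, d5, d6⟩ := dg_faces
  have hA := ev_tri T (pr (A := Y ⊗ Δ[1]) (B := Δ[1]) (pr (B := Δ[1]) (deg ⦋2⦌ y) (dg 1)) (dg 0))
  have hB := ev_tri T (pr (A := Y ⊗ Δ[1]) (B := Δ[1]) (pr (B := Δ[1]) (deg ⦋2⦌ y) (dg 0)) (dg 1))
  rw [sq_faces y _ 1 0 _ _ d4 d1, sq_faces y _ 1 0 _ _ d5 d2, sq_faces y _ 1 0 _ _ d6 d3] at hA
  rw [sq_faces y _ 0 1 _ _ d1 d4, sq_faces y _ 0 1 _ _ d2 d5, sq_faces y _ 0 1 _ _ d3 d6] at hB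
  rw [app_const T y 1 SSet.ι₁ (SSet.ι₀ ≫ T) (iota1_app _) h1, mul_one,
    ← iota0_app (Y := Y ⊗ Δ[1])] at hA
  rw [app_const T y 0 SSet.ι₀ (SSet.ι₀ ≫ T) (iota0_app _) h0, one_mul,
    ← iota1_app (Y := Y ⊗ Δ[1])] at hB
  exact hA.trans hB.symm

/-- The vertex with label `l`. -/
def pt (N : Type) [Group N] {L : Type} (l : L) : (XL L N).obj (op ⦋0⦌) :=
  (l, ⟨fun _ _ => 1, fun _ _ _ => one_mul 1⟩)

theorem XL0_ext {x y : (XL L N).obj (op ⦋0⦌)} (h : x.1 = y.1) : x = y := by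
  refine XL_ext h fun i j => ?_
  obtain rfl : i = j := Subsingleton.elim (α := Fin 1) i j
  rw [coc_self, coc_self]

/-- The vertex of `X^n` with given labels. -/
def pts (N : Type) [Group N] {L : Type} {n : ℕ} (l : Fin n → L) :
    (Pow (XL L N) n).obj (op ⦋0⦌) := fun i => pt N (l i)

theorem pts_ext {n : ℕ} {x y : (Pow (XL L N) n).obj (op ⦋0⦌)} (h : ∀ i, (x i).1 = (y i).1) :
    x = y :=
  funext fun i => XL0_ext (h i)

theorem gau_inst {Y : SSet.{0}} (α : Pow (XL L N) 3 ⊗ Δ[1] ⟶ XL L N) (u v w : Y ⟶ XL L N)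
    (y : Y.obj (op ⦋0⦌)) : gau (alphaAt α u v w) y = gau α ((powLift ![u, v, w]).app _ y) := by
  have h1 : (alphaAt α u v w).app (op ⦋1⦌) (pr (B := Δ[1]) (deg ⦋1⦌ y) (idS (op ⦋1⦌))) =
      α.app _ (((powLift ![u, v, w]) ▷ Δ[1]).app _ (pr (B := Δ[1]) (deg ⦋1⦌ y) (idS (op ⦋1⦌)))) :=
    rfl
  unfold gau
  rw [h1, whisker_pr, app_deg]

theorem label_htpy {Y : SSet.{0}} (H : Y ⊗ Δ[1] ⟶ XL L N) (y : Y.obj (op ⦋0⦌)) :
    (H.app (op ⦋1⦌) (pr (B := Δ[1]) (deg ⦋1⦌ y) (idS (op ⦋1⦌)))).1 =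
      ((SSet.ι₀ ≫ H).app _ y).1 := by
  have h1 := NatTrans.naturality_apply H (SimplexCategory.const ⦋0⦌ ⦋1⦌ 0).op
    (pr (B := Δ[1]) (deg ⦋1⦌ y) (idS (op ⦋1⦌)))
  have h2 := congrArg (fun x : (XL L N).obj (op ⦋0⦌) => x.1) h1
  refine h2.symm.trans ?_
  have h3 : (Y ⊗ Δ[1]).map (SimplexCategory.const ⦋0⦌ ⦋1⦌ 0).op
      (pr (B := Δ[1]) (deg ⦋1⦌ y) (idS (op ⦋1⦌))) = SSet.ι₀.app _ y := by
    rw [map_pr, map_deg]
    refine Prod.ext ?_ ?_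
    · change Y.map (SimplexCategory.const ⦋0⦌ ⦋0⦌ 0).op y = y
      rw [SimplexCategory.const_eq_id, op_id, Functor.map_id_apply]
    · change (Δ[1] : SSet.{0}).map (SimplexCategory.const ⦋0⦌ ⦋1⦌ 0).op (idS (op ⦋1⦌)) =
        (Δ[1] : SSet.{0}).map (SimplexCategory.const ⦋0⦌ ⦋0⦌ 0).op
          (SSet.stdSimplex.obj₀Equiv.symm 0)
      decide
  simp only
  rw [h3]
  rfl

theorem label_htpy' {Y : SSet.{0}} (H : Y ⊗ Δ[1] ⟶ XL L N) (y : Y.obj (op ⦋0⦌)) :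
    (H.app (op ⦋1⦌) (pr (B := Δ[1]) (deg ⦋1⦌ y) (idS (op ⦋1⦌)))).1 =
      ((SSet.ι₁ ≫ H).app _ y).1 := by
  have h1 := NatTrans.naturality_apply H (SimplexCategory.const ⦋0⦌ ⦋1⦌ 1).op
    (pr (B := Δ[1]) (deg ⦋1⦌ y) (idS (op ⦋1⦌)))
  have h2 := congrArg (fun x : (XL L N).obj (op ⦋0⦌) => x.1) h1
  refine h2.symm.trans ?_
  have h3 : (Y ⊗ Δ[1]).map (SimplexCategory.const ⦋0⦌ ⦋1⦌ 1).op
      (pr (B := Δ[1]) (deg ⦋1⦌ y) (idS (op ⦋1⦌))) = SSet.ι₁.app _ y := by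
    rw [map_pr, map_deg]
    refine Prod.ext ?_ ?_
    · change Y.map (SimplexCategory.const ⦋0⦌ ⦋0⦌ 0).op y = y
      rw [SimplexCategory.const_eq_id, op_id, Functor.map_id_apply]
    · change (Δ[1] : SSet.{0}).map (SimplexCategory.const ⦋0⦌ ⦋1⦌ 1).op (idS (op ⦋1⦌)) =
        (Δ[1] : SSet.{0}).map (SimplexCategory.const ⦋0⦌ ⦋0⦌ 0).op
          (SSet.stdSimplex.obj₀Equiv.symm 1)
      decide
  simp only
  rw [h3]
  rfl

theorem mkX_htpy {E : SSet.{0}} (hE : Conn E) (l l' : L) (f f' : E ⟶ BN N) :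
    (∃ H, IsHtpy (mkX l f) (mkX l' f') H) ↔ l = l' ∧ ∃ H, IsHtpy f f' H := by
  constructor
  · rintro ⟨H, h0, h1⟩
    refine ⟨?_, H ≫ toBN, ?_, ?_⟩
    · have e0 := label_htpy H hE.1.some
      have e1 := label_htpy' H hE.1.some
      rw [h0] at e0
      rw [h1] at e1
      exact e0.symm.trans e1
    · rw [← Category.assoc, h0]
      rfl
    · rw [← Category.assoc, h1]
      rfl
  · rintro ⟨rfl, H, rfl, rfl⟩
    exact ⟨mkX l H, rfl, rfl⟩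

theorem gau_mul_cst {Y : SSet.{0}} (D : LD L N) (H : Y ⊗ Δ[1] ⟶ XL L N) (d : Y ⟶ XL L N)
    (y : Y.obj (op ⦋0⦌)) : gau (mulMap (muL D) H (constHtpy d)) y =
      D.lam ((SSet.ι₀ ≫ H).app _ y).1 (d.app _ y).1 (gau H y) := by
  rw [← label_htpy]
  have h1 : (d.app _ y).1 = (d.app _ (deg ⦋1⦌ y)).1 := by
    rw [app_deg]
    rfl
  rw [h1]
  rfl

theorem gau_cst_mul {Y : SSet.{0}} (D : LD L N) (H : Y ⊗ Δ[1] ⟶ XL L N) (a : Y ⟶ XL L N)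
    (y : Y.obj (op ⦋0⦌)) : gau (mulMap (muL D) (constHtpy a) H) y = 1 := by
  have h1 : gau (mulMap (muL D) (constHtpy a) H) y = D.lam (a.app _ (deg ⦋1⦌ y)).1
      (H.app (op ⦋1⦌) (pr (B := Δ[1]) (deg ⦋1⦌ y) (idS (op ⦋1⦌)))).1
      (ev (a.app _ (deg ⦋1⦌ y))) := rfl
  rw [h1, app_deg, ev_deg, map_one]

/-- The edge of `BN` given by `n`. -/
def edg (n : N) : (BN N).obj (op ⦋1⦌) :=
  ⟨fun i j => ((![1, n] : Fin 2 → N) i)⁻¹ * (![1, n] : Fin 2 → N) j, fun i j l => by group⟩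

/-- A necessary condition for `A_4`. -/
theorem of_A4 (D : LD L N) (hA : A4 (muL D)) : ∃ h : L → L → L → N,
    (∀ a b c n, D.lam (D.mul a b) c (D.lam a b n) * h a b c =
      h a b c * D.lam a (D.mul b c) n) ∧
    (∀ a b c d, h (D.mul a b) c d * h a b (D.mul c d) =
      D.lam (D.mul (D.mul a b) c) d (h a b c) * h a (D.mul b c) d) := by
  obtain ⟨α, ⟨h0, h1⟩, P, R, Q, hP, hR, hQ, hrel⟩ := hA
  refine ⟨fun a b c => gau α (pts N ![a, b, c]), fun a b c n => ?_, fun a b c d => ?_⟩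
  · let e : (Pow (XL L N) 3).obj (op ⦋1⦌) := ![(a, edg n), (b, edg 1), (c, edg 1)]
    have h2 := gau_naturality α e
    have h3 : ∀ i : Fin 2, vtx e i = pts N ![a, b, c] := by
      intro i
      refine pts_ext fun j => ?_
      fin_cases j <;> rfl
    rw [h0, h1, h3, h3] at h2
    have h4 : ev ((mulMap (muL D) (mulMap (muL D) (proj 0) (proj 1)) (proj 2)).app _ e) =
        D.lam (D.mul a b) c (D.lam a b (1⁻¹ * n)) := rfl
    have h5 : ev ((mulMap (muL D) (proj 0) (mulMap (muL D) (proj 1) (proj 2))).app _ e) =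
        D.lam a (D.mul b c) (1⁻¹ * n) := rfl
    rw [h4, h5, inv_one, one_mul] at h2
    exact h2
  · have e1 := gau_composite hP (pts N ![a, b, c, d])
    have e2 := gau_composite hR (pts N ![a, b, c, d])
    have e3 := gau_composite hQ (pts N ![a, b, c, d])
    have e4 := gau_rel hrel (pts N ![a, b, c, d])
    rw [gau_cst_mul, mul_one] at e3
    rw [e3, e2, e1] at e4
    rw [gau_inst, gau_inst, gau_inst, gau_mul_cst, gau_inst] at e4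
    have f1 : (powLift ![mulMap (muL D) (proj 0) (proj 1), proj 2, proj 3]).app _
        (pts N ![a, b, c, d]) = pts N ![D.mul a b, c, d] := by
      refine pts_ext fun j => ?_
      fin_cases j <;> rfl
    have f2 : (powLift ![proj 0, proj 1, mulMap (muL D) (proj 2) (proj 3)]).app _
        (pts N ![a, b, c, d]) = pts N ![a, b, D.mul c d] := by
      refine pts_ext fun j => ?_
      fin_cases j <;> rfl
    have f3 : (powLift ![proj 0, mulMap (muL D) (proj 1) (proj 2), proj 3]).app _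
        (pts N ![a, b, c, d]) = pts N ![a, D.mul b c, d] := by
      refine pts_ext fun j => ?_
      fin_cases j <;> rfl
    have f4 : (powLift ![proj 0, proj 1, proj 2]).app _ (pts N ![a, b, c, d]) =
        pts N ![a, b, c] := by
      refine pts_ext fun j => ?_
      fin_cases j <;> rfl
    have f5 : ((SSet.ι₀ ≫ alphaAt α (proj 0) (proj 1) (proj 2)).app _ (pts N ![a, b, c, d])).1 =
        D.mul (D.mul a b) c := by
      have g1 : SSet.ι₀ ≫ alphaAt α (proj 0) (proj 1) (proj 2) =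
          powLift ![proj (X := XL L N) (n := 4) 0, proj 1, proj 2] ≫ SSet.ι₀ ≫ α := rfl
      rw [g1, h0]
      rfl
    rw [f1, f2, f3, f4, f5] at e4
    exact e4

end

end Pool.Agent.H93.Hofo
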