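import Pool.Agent.H93.Hofo.Nec

/-!
# Truth in the structures `Sh × V × BN`

Truth of a formula in a structure of the form `(Sh × V) × BN` only depends on a finite amount of
information about `V`.
-/

namespace Pool.Agent.H93.Hofo

open CategoryTheory MonoidalCategory CartesianMonoidalCategory Opposite

noncomputable section

/-- Shape data. -/
structure SD (Sh N : Type) [Group N] where
  mul : Sh → Sh → Sh
  lam : Sh → Sh → (N →* N)

/-- The label data on `Sh × V` given by an operation on the second component. -/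
def SD.toLD {Sh N : Type} [Group N] (S : SD Sh N) {V : Type} (op : Sh → Sh → V → V → V) :
    LD (Sh × V) N where
  mul a b := (S.mul a.1 b.1, op a.1 b.1 a.2 b.2)
  lam a b := S.lam a.1 b.1

/-- `Fin.snoc` for functions. -/
def fsnoc {α : Type*} {n : ℕ} (σ : Fin n → α) (a : α) : Fin (n + 1) → α :=
  Fin.snoc (α := fun _ => α) σ a

theorem fsnoc_last {α : Type*} {n : ℕ} (σ : Fin n → α) (a : α) : fsnoc σ a (Fin.last n) = a :=
  Fin.snoc_last (α := fun _ => α) a σ

theorem fsnoc_castSucc {α : Type*} {n : ℕ} (σ : Fin n → α) (a : α) (i : Fin n) :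
    fsnoc σ a i.castSucc = σ i :=
  Fin.snoc_castSucc (α := fun _ => α) a σ i

variable {Sh N : Type} [Group N] (S : SD Sh N)

/-- The shape of a term. -/
def tsh {n : ℕ} (σ : Fin n → Sh) : Tm n → Sh
  | .var i => σ i
  | .m s t => S.mul (tsh σ s) (tsh σ t)

/-- The `V`-component of a term. -/
def tv {V : Type} (op : Sh → Sh → V → V → V) {n : ℕ} (σ : Fin n → Sh) (v : Fin n → V) : Tm n → V
  | .var i => v i
  | .m s t => op (tsh S σ s) (tsh S σ t) (tv op σ v s) (tv op σ v t)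

/-- The `BN`-component of a term. -/
def tb {E : SSet.{0}} {n : ℕ} (σ : Fin n → Sh) (f : Fin n → (E ⟶ BN N)) : Tm n → (E ⟶ BN N)
  | .var i => f i
  | .m s t => tb σ f s ≫ bmap (S.lam (tsh S σ s) (tsh S σ t))

/-- The finite set of types for `φ`. -/
def Ty (Sh : Type) : {n : ℕ} → Fml n → Type
  | _, .top => Unit
  | _, .bot => Unit
  | _, .eq _ _ => Prop
  | _, .and φ ψ => Ty Sh φ × Ty Sh ψ
  | _, .or φ ψ => Ty Sh φ × Ty Sh ψ
  | _, .imp φ ψ => Ty Sh φ × Ty Sh ψ
  | _, .all φ => Sh → Set (Ty Sh φ)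
  | _, .ex φ => Sh → Set (Ty Sh φ)

theorem finite_Ty [Finite Sh] {n : ℕ} (φ : Fml n) : Finite (Ty Sh φ) := by
  induction φ with
  | top => exact inferInstanceAs (Finite Unit)
  | bot => exact inferInstanceAs (Finite Unit)
  | eq s t => exact inferInstanceAs (Finite Prop)
  | and φ ψ h1 h2 => exact @Finite.instProd _ _ h1 h2
  | or φ ψ h1 h2 => exact @Finite.instProd _ _ h1 h2
  | imp φ ψ h1 h2 => exact @Finite.instProd _ _ h1 h2
  | all φ h => 
    have : Finite (Ty Sh φ) := h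
    exact inferInstanceAs (Finite (Sh → Set (Ty Sh φ)))
  | ex φ h =>
    have : Finite (Ty Sh φ) := h
    exact inferInstanceAs (Finite (Sh → Set (Ty Sh φ)))

/-- The type of a tuple. -/
def val {V : Type} (op : Sh → Sh → V → V → V) : {n : ℕ} → (φ : Fml n) → (Fin n → Sh) →
    (Fin n → V) → Ty Sh φ
  | _, .top, _, _ => ()
  | _, .bot, _, _ => ()
  | _, .eq s t, σ, v => tv S op σ v s = tv S op σ v t
  | _, .and φ ψ, σ, v => (val op φ σ v, val op ψ σ v)
  | _, .or φ ψ, σ, v => (val op φ σ v, val op ψ σ v)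
  | _, .imp φ ψ, σ, v => (val op φ σ v, val op ψ σ v)
  | _, .all φ, σ, v => fun a => Set.range fun w => val op φ (fsnoc σ a) (fsnoc v w)
  | _, .ex φ, σ, v => fun a => Set.range fun w => val op φ (fsnoc σ a) (fsnoc v w)

/-- The meaning of a type. -/
def sem : {n : ℕ} → (φ : Fml n) → (Fin n → Sh) → Ty Sh φ → (E : SSet.{0}) →
    (Fin n → (E ⟶ BN N)) → Prop
  | _, .top, _, _, _, _ => True
  | _, .bot, _, _, _, _ => False
  | _, .eq s t, σ, p, _, f => p ∧ tsh S σ s = tsh S σ t ∧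
      ∃ H, IsHtpy (tb S σ f s) (tb S σ f t) H
  | _, .and φ ψ, σ, p, E, f => sem φ σ p.1 E f ∧ sem ψ σ p.2 E f
  | _, .or φ ψ, σ, p, E, f => sem φ σ p.1 E f ∨ sem ψ σ p.2 E f
  | _, .imp φ ψ, σ, p, E, f => ∀ (E' : SSet.{0}) (_ : Conn E') (g : E' ⟶ E),
      sem φ σ p.1 E' (fun i => g ≫ f i) → sem ψ σ p.2 E' (fun i => g ≫ f i)
  | _, .all φ, σ, p, E, f => ∀ (a : Sh) (q : Ty Sh φ) (_ : q ∈ p a) (E' : SSet.{0}) (_ : Conn E')
      (g : E' ⟶ E) (f' : E' ⟶ BN N), sem φ (fsnoc σ a) q E' (fsnoc (fun i => g ≫ f i) f')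
  | _, .ex φ, σ, p, E, f => ∃ (a : Sh) (q : Ty Sh φ) (_ : q ∈ p a) (f' : E ⟶ BN N),
      sem φ (fsnoc σ a) q E (fsnoc f f')

/-- The map `E → (L × BN)^n` given by labels and maps `E → BN`. -/
def tup {L : Type} {n : ℕ} {E : SSet.{0}} (l : Fin n → L) (f : Fin n → (E ⟶ BN N)) :
    E ⟶ Pow (XL L N) n :=
  powLift fun i => mkX (l i) (f i)

theorem comp_tup {L : Type} {n : ℕ} {E E' : SSet.{0}} (g : E' ⟶ E) (l : Fin n → L)
    (f : Fin n → (E ⟶ BN N)) : g ≫ tup l f = tup l (fun i => g ≫ f i) := rfl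

theorem snoc_tup {L : Type} {n : ℕ} {E : SSet.{0}} (l : Fin n → L) (f : Fin n → (E ⟶ BN N))
    (l' : L) (f' : E ⟶ BN N) : snoc (tup l f) (mkX l' f') = tup (fsnoc l l') (fsnoc f f') := by
  ext k e
  funext i
  refine Fin.lastCases ?_ (fun j => ?_) i
  · refine (Fin.snoc_last (α := fun _ => (XL L N).obj k) _ _).trans ?_
    change _ = (mkX (fsnoc l l' (Fin.last n)) (fsnoc f f' (Fin.last n))).app k e
    rw [fsnoc_last, fsnoc_last]
  · refine (Fin.snoc_castSucc (α := fun _ => (XL L N).obj k) _ _ j).trans ?_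
    change _ = (mkX (fsnoc l l' j.castSucc) (fsnoc f f' j.castSucc)).app k e
    rw [fsnoc_castSucc, fsnoc_castSucc]
    rfl

variable {V : Type} (op : Sh → Sh → V → V → V)

/-- The labels with given shapes and `V`-components. -/
def lab {n : ℕ} (σ : Fin n → Sh) (v : Fin n → V) : Fin n → Sh × V := fun i => (σ i, v i)

theorem fsnoc_lab {n : ℕ} (σ : Fin n → Sh) (v : Fin n → V) (a : Sh) (w : V) :
    fsnoc (lab σ v) (a, w) = lab (fsnoc σ a) (fsnoc v w) := by
  funext i
  refine Fin.lastCases ?_ (fun j => ?_) i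
  · unfold lab
    rw [fsnoc_last, fsnoc_last, fsnoc_last]
  · unfold lab
    rw [fsnoc_castSucc, fsnoc_castSucc, fsnoc_castSucc]

theorem tup_eval {E : SSet.{0}} {n : ℕ} (σ : Fin n → Sh) (v : Fin n → V)
    (f : Fin n → (E ⟶ BN N)) (t : Tm n) :
    tup (lab σ v) f ≫ t.eval (muL (S.toLD op)) = mkX (tsh S σ t, tv S op σ v t) (tb S σ f t) := by
  induction t with
  | var i => rfl
  | m s t hs ht =>
    have h1 : tup (lab σ v) f ≫ (Tm.m s t).eval (muL (S.toLD op)) =
        CartesianMonoidalCategory.lift (tup (lab σ v) f ≫ s.eval (muL (S.toLD op)))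
          (tup (lab σ v) f ≫ t.eval (muL (S.toLD op))) ≫ muL (S.toLD op) := rfl
    rw [h1, hs, ht]
    rfl

/-- Truth in a structure `Sh × V × BN` is determined by the type. -/
theorem force_iff {n : ℕ} (φ : Fml n) (σ : Fin n → Sh) (v : Fin n → V) (E : SSet.{0})
    (hE : Conn E) (f : Fin n → (E ⟶ BN N)) :
    Force (muL (S.toLD op)) φ (tup (lab σ v) f) ↔ sem S φ σ (val S op φ σ v) E f := by
  induction φ generalizing E with
  | top => exact iff_of_true (force_top _) trivial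
  | bot => exact iff_of_false (fun h => force_bot h _ hE.1.some) (fun h => h)
  | eq s t =>
    rw [force_eq, tup_eval, tup_eval, mkX_htpy hE, Prod.mk.injEq]
    change _ ↔ (tv S op σ v s = tv S op σ v t) ∧ tsh S σ s = tsh S σ t ∧
      ∃ H, IsHtpy (tb S σ f s) (tb S σ f t) H
    tauto
  | and φ ψ h1 h2 => exact force_and.trans (and_congr (h1 σ v E hE f) (h2 σ v E hE f))
  | or φ ψ h1 h2 => exact (force_or hE).trans (or_congr (h1 σ v E hE f) (h2 σ v E hE f))
  | imp φ ψ h1 h2 =>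
    refine force_imp'.trans ?_
    refine forall_congr' fun E' => forall_congr' fun hE' => forall_congr' fun g => ?_
    rw [comp_tup]
    exact imp_congr (h1 σ v E' hE' _) (h2 σ v E' hE' _)
  | all φ h =>
    refine force_all'.trans ?_
    constructor
    · rintro H a q ⟨w, rfl⟩ E' hE' g f'
      have h1 := H E' hE' g (mkX (a, w) f')
      rw [comp_tup, snoc_tup, fsnoc_lab] at h1
      exact (h _ _ E' hE' _).mp h1
    · intro H E' hE' g u
      obtain ⟨⟨a, w⟩, f', rfl⟩ := exists_mkX hE' u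
      rw [comp_tup, snoc_tup, fsnoc_lab]
      exact (h _ _ E' hE' _).mpr (H a _ ⟨w, rfl⟩ E' hE' g f')
  | ex φ h =>
    refine force_ex.trans ?_
    constructor
    · rintro ⟨u, hu⟩
      obtain ⟨⟨a, w⟩, f', rfl⟩ := exists_mkX hE u
      rw [snoc_tup, fsnoc_lab] at hu
      exact ⟨a, _, ⟨w, rfl⟩, f', (h _ _ E hE _).mp hu⟩
    · rintro ⟨a, q, ⟨w, rfl⟩, f', hq⟩
      refine ⟨mkX (a, w) f', ?_⟩
      rw [snoc_tup, fsnoc_lab]
      exact (h _ _ E hE _).mpr hq

theorem conn_pt : Conn (SSet.stdSimplex.{0}.obj (SimplexCategory.mk 0)) := by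
  refine ⟨⟨idS (Opposite.op (SimplexCategory.mk 0))⟩, fun L F hF k l z w => ?_⟩
  have h1 : ∀ (k : SimplexCategoryᵒᵖ)
      (z : (SSet.stdSimplex.{0}.obj (SimplexCategory.mk 0)).obj k), F k z = F _ (idS (Opposite.op (SimplexCategory.mk 0))) := by
    intro k z
    have h2 : z = (SSet.stdSimplex.{0}.obj (SimplexCategory.mk 0)).map
        (SimplexCategory.const k.unop (SimplexCategory.mk 0) 0).op (idS (Opposite.op (SimplexCategory.mk 0))) := by
      apply SSet.stdSimplex.objEquiv.injective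
      exact (SimplexCategory.eq_const_to_zero _).trans (SimplexCategory.eq_const_to_zero _).symm
    rw [h2, hF]
  rw [h1 k z, h1 l w]

theorem sat_iff (φ : Fml 0) : Sat (muL (S.toLD op)) φ ↔
    sem S φ Fin.elim0 (val S op φ Fin.elim0 Fin.elim0)
      (SSet.stdSimplex.{0}.obj (SimplexCategory.mk 0)) (fun i => Fin.elim0 i) := by
  rw [← force_iff S op φ Fin.elim0 Fin.elim0 _ conn_pt]
  constructor
  · rintro ⟨x⟩
    refine ⟨smap (k := Opposite.op (SimplexCategory.mk 0)) x, ?_⟩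
    ext k e
    exact funext fun i => Fin.elim0 i
  · rintro ⟨g, -⟩
    exact ⟨g.app _ (idS (Opposite.op (SimplexCategory.mk 0)))⟩

end

end Pool.Agent.H93.Hofo
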