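import Pool.Agent.H93.Hofo.Example

/-!
# Cycles of odd length and their ultraproduct
-/

namespace Pool.Agent.H93.Hofo

open Filter

/-- The self-map of `ℕ` with the cycle `0, 1, ..., 2 s`. -/
def cyc (s i : ℕ) : ℕ := if i = 2 * s then 0 else i + 1

theorem not_A4_cyc (s : ℕ) : ¬ A4 (muL (SS.toLD (opV (cyc s) 0))) := by
  intro hA
  obtain ⟨c, hc⟩ := colouring_of_A4 _ _ hA
  have h1 : ∀ i : ℕ, i ≤ 2 * s → c i = c 0 + (i : ZMod 2) := by
    intro i
    induction i with
    | zero => simp
    | succ i ih =>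
      intro hi
      have h2 := hc i
      have h3 : cyc s i = i + 1 := if_neg (by omega)
      rw [h3, ih (by omega)] at h2
      rw [h2]
      push_cast
      ring
  have h2 := hc (2 * s)
  have h3 : cyc s (2 * s) = 0 := if_pos rfl
  rw [h3, h1 (2 * s) le_rfl] at h2
  have h4 : ((2 * s : ℕ) : ZMod 2) = 0 := by
    push_cast
    rw [show (2 : ZMod 2) = 0 from rfl, zero_mul]
  rw [h4, add_zero] at h2
  have h5 : (1 : ZMod 2) = 0 := left_eq_add.mp h2
  exact absurd h5 (by decide)

/-- The nonprincipal ultrafilter. -/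
noncomputable def UU : Ultrafilter ℕ := hyperfilter ℕ

/-- The underlying set of the ultraproduct. -/
def VV : Type := (UU : Filter ℕ).Germ ℕ

/-- The class of a sequence. -/
noncomputable def pi (v : ℕ → ℕ) : VV := (v : (UU : Filter ℕ).Germ ℕ)

theorem pi_surjective : Function.Surjective pi := fun x =>
  Filter.Germ.inductionOn x fun v => ⟨v, rfl⟩

theorem pi_eq (v w : ℕ → ℕ) : pi v = pi w ↔ ∀ᶠ s in (UU : Filter ℕ), v s = w s :=
  Filter.Germ.coe_eq

/-- The self-map of the ultraproduct. -/
noncomputable def cycU : VV → VV := fun x => pi fun s => cyc s ((pi_surjective x).choose s)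

theorem cycU_pi (v : ℕ → ℕ) : cycU (pi v) = pi fun s => cyc s (v s) := by
  refine (pi_eq _ _).mpr ?_
  filter_upwards [(pi_eq _ _).mp (pi_surjective (pi v)).choose_spec] with s hs
  rw [hs]

open Classical in
/-- The colouring on sequences. -/
noncomputable def col (v : ℕ → ℕ) : Bool :=
  xor (decide (∀ᶠ s in (UU : Filter ℕ), Odd (v s)))
    (decide (∃ k : ℕ, ∀ᶠ s in (UU : Filter ℕ), v s + k = 2 * s))

theorem col_congr {v w : ℕ → ℕ} (h : ∀ᶠ s in (UU : Filter ℕ), v s = w s) : col v = col w := by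
  have h1 : (∀ᶠ s in (UU : Filter ℕ), Odd (v s)) ↔ ∀ᶠ s in (UU : Filter ℕ), Odd (w s) :=
    eventually_congr (h.mono fun s hs => by rw [hs])
  have h2 : (∃ k : ℕ, ∀ᶠ s in (UU : Filter ℕ), v s + k = 2 * s) ↔
      ∃ k : ℕ, ∀ᶠ s in (UU : Filter ℕ), w s + k = 2 * s :=
    exists_congr fun k => eventually_congr (h.mono fun s hs => by rw [hs])
  unfold col
  congr 1
  · exact decide_eq_decide.mpr h1
  · exact decide_eq_decide.mpr h2

theorem not_eventually_const (k : ℕ) : ¬ ∀ᶠ s in (UU : Filter ℕ), k = 2 * s := by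
  intro h
  have h1 : {s : ℕ | k = 2 * s}.Finite := by
    refine (Set.finite_singleton (k / 2)).subset fun s hs => ?_
    have hs' : k = 2 * s := hs
    rw [Set.mem_singleton_iff]
    omega
  exact (Filter.notMem_hyperfilter_of_finite h1) h

open Classical in
theorem col_cyc (v : ℕ → ℕ) : col (fun s => cyc s (v s)) = !(col v) := by
  rcases Ultrafilter.em UU (fun s => v s = 2 * s) with h | h
  · have e1 : col (fun s => cyc s (v s)) = col fun _ => 0 :=
      col_congr (h.mono fun s hs => if_pos hs)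
    have e2 : col v = col fun s => 2 * s := col_congr h
    rw [e1, e2]
    unfold col
    have h1 : ¬ ∀ᶠ _ in (UU : Filter ℕ), Odd 0 := by
      intro h3
      obtain ⟨s, hs⟩ := h3.exists
      exact absurd hs (by decide)
    have h2 : ¬ ∃ k : ℕ, ∀ᶠ s in (UU : Filter ℕ), 0 + k = 2 * s := by
      rintro ⟨k, hk⟩
      exact not_eventually_const k (hk.mono fun s hs => by omega)
    have h3 : ¬ ∀ᶠ s in (UU : Filter ℕ), Odd (2 * s) := by
      intro h3
      obtain ⟨s, hs⟩ := h3.exists
      exact absurd hs (by simp)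
    have h4 : ∃ k : ℕ, ∀ᶠ s in (UU : Filter ℕ), 2 * s + k = 2 * s :=
      ⟨0, Eventually.of_forall fun s => rfl⟩
    rw [decide_eq_false h1, decide_eq_false h2, decide_eq_false h3, decide_eq_true h4]
    rfl
  · have e1 : col (fun s => cyc s (v s)) = col fun s => v s + 1 :=
      col_congr (h.mono fun s hs => if_neg hs)
    rw [e1]
    have h1 : (∀ᶠ s in (UU : Filter ℕ), Odd (v s + 1)) ↔ ¬ ∀ᶠ s in (UU : Filter ℕ), Odd (v s) := by
      rw [← Ultrafilter.eventually_not]
      exact eventually_congr (Eventually.of_forall fun s => Nat.odd_add_one)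
    have h2 : (∃ k : ℕ, ∀ᶠ s in (UU : Filter ℕ), v s + 1 + k = 2 * s) ↔
        ∃ k : ℕ, ∀ᶠ s in (UU : Filter ℕ), v s + k = 2 * s := by
      constructor
      · rintro ⟨k, hk⟩
        exact ⟨k + 1, hk.mono fun s hs => by omega⟩
      · rintro ⟨k, hk⟩
        obtain _ | k := k
        · obtain ⟨s, hs1, hs2⟩ := (hk.and h).exists
          exact absurd hs1 hs2
        · exact ⟨k, hk.mono fun s hs => by omega⟩
    unfold col
    rw [decide_eq_decide.mpr h1, decide_eq_decide.mpr h2, decide_not, Bool.not_xor]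

theorem A4_ultra : A4 (muL (SS.toLD (opV cycU (pi fun _ => 0)))) := by
  refine A4_of_colouring _ _ (fun x => col (pi_surjective x).choose) fun x => ?_
  obtain ⟨v, rfl⟩ := pi_surjective x
  have e1 : col (pi_surjective (pi v)).choose = col v :=
    col_congr ((pi_eq _ _).mp (pi_surjective (pi v)).choose_spec)
  have e2 : col (pi_surjective (cycU (pi v))).choose = col fun s => cyc s (v s) := by
    refine col_congr ((pi_eq _ _).mp ((pi_surjective (cycU (pi v))).choose_spec.trans ?_))
    exact cycU_pi v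
  change col (pi_surjective (cycU (pi v))).choose = !(col (pi_surjective (pi v)).choose)
  rw [e1, e2]
  exact col_cyc v

/-- No sentence expresses the `A_4` condition. -/
theorem main : ¬ ∃ φ : Fml 0, ∀ (X : SSet.{0}) [SSet.KanComplex X]
    (μ : CategoryTheory.MonoidalCategoryStruct.tensorObj X X ⟶ X), Sat μ φ ↔ A4 μ := by
  rintro ⟨φ, hφ⟩
  have hfin := finite_Sh3
  have hK : ∀ L : Type, SSet.KanComplex (XL L NN) := fun L => kan_XL L NN
  have h1 : Sat (muL (SS.toLD (opV cycU (pi fun _ => 0)))) φ := (hφ _ _).mpr A4_ultra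
  have h2 := sat_los SS UU (fun s => opV (cyc s) 0) (opV cycU (pi fun _ => 0)) pi pi_surjective
    pi_eq (by
      intro a b v w
      rcases a with ⟨ε, r⟩ | β | _ <;> rcases b with ⟨ε', r'⟩ | β' | _ <;> try rfl
      change (if tt β r' then cycU (pi v) else pi v) =
        pi fun s => if tt β r' then cyc s (v s) else v s
      cases tt β r'
      · rfl
      · exact cycU_pi v) φ h1
  obtain ⟨s, hs⟩ := h2.exists
  exact not_A4_cyc s ((hφ _ _).mp hs)

end Pool.Agent.H93.Hofo
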